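import Pool.Agent.helper47.PV.ToolB
/-! PV project (MP_c0bc55_al), computability toolkit, part 5: decoding and conjugacy, from the structure
`Geo`. -/
set_option linter.unusedSectionVars false
namespace Pool.Agent.helper47.PV
open Primrec
open Pool.Agent.helper50.BW (W Fd Triv)
open Pool.Agent.helper4.PV (BB wl Ltr Par cm mkr hh wprod Wt Nd Geo)

/-! ### searches with witnesses -/

section search
variable {α β : Type*} [Primcodable α] [Primcodable β]

/-- search through a list -/
theorem exists_search {R : α → β → Prop} (hR : PrimrecRel R) {f : α → List β} (hf : Primrec f) :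
    ∃ s : α → Option β, Primrec s ∧ (∀ a b, s a = some b → b ∈ f a ∧ R a b) ∧
      (∀ a, s a = none → ∀ b ∈ f a, ¬ R a b) := by
  classical
  have h : PrimrecRel fun (b : β) (a : α) => R a b := hR.comp snd fst
  refine ⟨fun a => ((f a).filter fun b => R a b).head?, ?_, ?_, ?_⟩
  · exact list_head?.comp ((h.listFilter).comp hf Primrec.id)
  · intro a b hb
    have h1 : b ∈ (f a).filter fun b => R a b := List.mem_of_mem_head? hb
    simpa using h1
  · intro a ha b hb hR'
    have h1 : (f a).filter (fun b => R a b) = [] := List.head?_eq_none_iff.1 ha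
    have h2 : b ∈ (f a).filter fun b => R a b := by simpa using ⟨hb, hR'⟩
    rw [h1] at h2
    simp at h2

theorem exists_search_word {R : α → Wd → Prop} (hR : PrimrecRel R) {n l : α → ℕ}
    (hn : Primrec n) (hl : Primrec l) :
    ∃ s : α → Option Wd, Primrec s ∧ (∀ a w, s a = some w → w.length ≤ l a ∧ LtN (n a) w ∧ R a w) ∧
      (∀ a, s a = none → ∀ w : Wd, w.length ≤ l a → LtN (n a) w → ¬ R a w) := by
  obtain ⟨s, h1, h2, h3⟩ := exists_search hR (prim_wordsLE.comp hn hl)
  refine ⟨s, h1, fun a w h => ?_, fun a h w hw1 hw2 => h3 a h w (mem_wordsLE.2 ⟨hw1, hw2⟩)⟩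
  obtain ⟨h4, h5⟩ := h2 a w h
  obtain ⟨h6, h7⟩ := mem_wordsLE.1 h4
  exact ⟨h6, h7, h5⟩

theorem exists_search_tuple {R : α → List Wd → Prop} (hR : PrimrecRel R) {n l k : α → ℕ}
    (hn : Primrec n) (hl : Primrec l) (hk : Primrec k) :
    ∃ s : α → Option (List Wd), Primrec s ∧ (∀ a t, s a = some t → t.length = k a ∧
        (∀ w ∈ t, w.length ≤ l a ∧ LtN (n a) w) ∧ R a t) ∧
      (∀ a, s a = none → ∀ t : List Wd, t.length = k a → (∀ w ∈ t, w.length ≤ l a ∧ LtN (n a) w) →
        ¬ R a t) := by
  obtain ⟨s, h1, h2, h3⟩ := exists_search hR (prim_tuplesLE.comp (Primrec.pair hn (Primrec.pair hl hk)))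
  refine ⟨s, h1, fun a w h => ?_, fun a h w hw1 hw2 => h3 a h w (mem_tuplesLE.2 ⟨hw1, hw2⟩)⟩
  obtain ⟨h4, h5⟩ := h2 a w h
  obtain ⟨h6, h7⟩ := mem_tuplesLE.1 h4
  exact ⟨h6, h7, h5⟩

end search

/-! ### the largest letter -/

/-- one more than the largest letter -/
def mxl (w : Wd) : ℕ := w.foldr (fun a m => max (a.1 + 1) m) 0

theorem LtN_mxl (w : Wd) : LtN (mxl w) w := by
  induction w with
  | nil => exact LtN.nil _
  | cons a w ih =>
    intro b hb
    have h : mxl (a :: w) = max (a.1 + 1) (mxl w) := rfl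
    rw [h]
    rcases List.mem_cons.1 hb with rfl | hb
    · exact lt_of_lt_of_le (Nat.lt_succ_self _) (le_max_left _ _)
    · exact lt_of_lt_of_le (ih b hb) (le_max_right _ _)

theorem mxl_le {n : ℕ} {w : Wd} (h : LtN n w) : mxl w ≤ n := by
  induction w with
  | nil => exact Nat.zero_le _
  | cons a w ih =>
    exact max_le (h a List.mem_cons_self) (ih fun b hb => h b (List.mem_cons_of_mem _ hb))

theorem prim_mxl : Primrec mxl := by
  unfold mxl
  exact list_foldr (h := fun (_ : Wd) (x : (ℕ × Bool) × ℕ) => max (x.1.1 + 1) x.2) Primrec.id (const 0)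
    (nat_max.comp (succ.comp (fst.comp (fst.comp snd))) (snd.comp snd))

theorem prim_pow (Q : ℕ) : Primrec fun n : ℕ => Q ^ n := by
  refine (nat_rec₁ (f := fun (_ : ℕ) (m : ℕ) => m * Q) 1 (nat_mul.comp snd (const Q))).of_eq ?_
  intro n
  induction n with
  | zero => rfl
  | succ n ih => rw [pow_succ, ← ih]

variable {d : ℕ} {P : Par}

/-! ### degenerate test words -/

theorem Wt_of_not_Nd {G : Type} [Group G] {a y z : G} (h : ¬ Nd a y z) : Wt P a y z = 1 := by
  have key : ∀ {a y z : G}, Commute a y → Commute a z → Wt P a y z = 1 := by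
    intro a y z hy hz
    have c1 : ∀ (b y : G), Commute b y → cm b y = 1 := by
      intro b y hb
      unfold cm
      rw [← hb.eq]
      simp
    have hm : mkr P a y z = 1 := by
      unfold mkr
      rw [c1 a y hy, c1 _ y (hy.pow_left _), c1 a z hz, c1 _ z (hz.pow_left _)]
      simp
    unfold Wt
    rw [hm]
    unfold wprod
    have h1 : y * a * y⁻¹ = a := by rw [← hy.eq]; simp
    have h2 : z * a * z⁻¹ = a := by rw [← hz.eq]; simp
    simp only [one_pow, one_mul, List.ofFn_succ, List.ofFn_zero, hh, mul_one, inv_one]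
    simp only [h1, h2, List.prod_cons, List.prod_nil, Matrix.cons_val_zero, Matrix.cons_val_succ, mul_one]
    group
  by_cases ha : a = 1
  · subst ha
    exact key (Commute.one_left y) (Commute.one_left z)
  · have h3 : Commute a y ∧ Commute a z := by
      by_contra h4
      exact h ⟨ha, h4⟩
    exact key h3.1 h3.2

theorem ne_one_of_Nd (hG : Geo d P) {a y z : BB d} (h : Nd a y z) : Wt P a y z ≠ 1 := by
  intro h1
  exact hG.ncomm a y z h (by rw [h1]; exact Commute.one_left a)

theorem Nd_of_ne_one {a y z : BB d} (h : Wt P a y z ≠ 1) : Nd a y z := by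
  by_contra h1
  exact h (Wt_of_not_Nd h1)

theorem Nd_conj {G : Type} [Group G] {a y z : G} (g : G) (h : Nd a y z) :
    Nd (g * a * g⁻¹) (g * y * g⁻¹) (g * z * g⁻¹) := by
  obtain ⟨h1, h2⟩ := h
  have key : ∀ {a y : G} (g : G), Commute (g * a * g⁻¹) (g * y * g⁻¹) → Commute a y := by
    intro a y g h
    have h3 := congrArg (fun x => g⁻¹ * x * g) h.eq
    show a * y = y * a
    simpa [mul_assoc] using h3
  refine ⟨?_, ?_⟩
  · intro h3
    apply h1
    have := congrArg (fun x => g⁻¹ * x * g) h3
    simpa [mul_assoc] using this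
  · rintro ⟨h3, h4⟩
    exact h2 ⟨key g h3, key g h4⟩

theorem pow_d_eq_one (x : BB d) : x ^ d = 1 := by
  obtain ⟨g, rfl⟩ := QuotientGroup.mk_surjective x
  rw [← QuotientGroup.mk_pow]
  exact (QuotientGroup.eq_one_iff _).2 (Subgroup.subset_closure ⟨g, rfl⟩)

/-- powers with exponent < d -/
theorem zpow_eq_pow_mod (hd : 0 < d) (x : BB d) (k : ℤ) : ∃ m < d, x ^ k = x ^ m := by
  have hd' : (0 : ℤ) < d := by exact_mod_cast hd
  have h0 := Int.emod_nonneg k (ne_of_gt hd')
  have h1 := Int.emod_lt_of_pos k hd'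
  refine ⟨(k % d).toNat, by omega, ?_⟩
  have h2 : ((k % d).toNat : ℤ) = k % d := Int.toNat_of_nonneg h0
  rw [← zpow_natCast, h2]
  conv_lhs => rw [← Int.emod_add_mul_ediv k d, zpow_add, zpow_mul, zpow_natCast, pow_d_eq_one, one_zpow, mul_one]

/-- the elements commuting with a given nontrivial element -/
theorem commute_iff_pow (hG : Geo d P) (hd : 0 < d) {u h : BB d} (hu : u ≠ 1) (hc : Commute h u) :
    ∃ m < d, h = u ^ m := by
  obtain ⟨k, hk⟩ := Subgroup.mem_zpowers_iff.1 (hG.cent u h hu hc)
  obtain ⟨m, hm, h1⟩ := zpow_eq_pow_mod hd u k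
  exact ⟨m, hm, by rw [← hk, h1]⟩

/-! ### conjugacy -/

/-- search for a conjugating word -/
theorem exists_conjW (hG : Geo d P) (hT : PrimrecPred fun w : W => Triv d w) :
    ∃ s : W × W → Option W, Primrec s ∧
      (∀ u v t, s (u, v) = some t → wl d t * wl d u * (wl d t)⁻¹ = wl d v ∧
        ∀ n, LtN n u → LtN n v → LtN n t) ∧
      (∀ u v, s (u, v) = none → ¬ IsConj (wl d u) (wl d v)) := by
  obtain ⟨C, Q, hB⟩ := hG.conjB
  have hR : PrimrecRel fun (x : W × W) (t : W) => wl d (wconj t x.1) = wl d x.2 :=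
    (prim_wlEq hT).comp (prim_wconj.comp snd (fst.comp fst)) (snd.comp fst)
  have hn : Primrec fun x : W × W => max (mxl x.1) (mxl x.2) :=
    nat_max.comp (prim_mxl.comp fst) (prim_mxl.comp snd)
  have hl : Primrec fun x : W × W => C * Q ^ (max x.1.length x.2.length) :=
    nat_mul.comp (const C) ((prim_pow Q).comp (nat_max.comp (list_length.comp fst) (list_length.comp snd)))
  obtain ⟨s, h1, h2, h3⟩ := exists_search_word hR hn hl
  refine ⟨s, h1, ?_, ?_⟩
  · intro u v t h
    obtain ⟨-, h5, h6⟩ := h2 _ _ h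
    refine ⟨by rw [← wl_wconj]; exact h6, fun n hu hv => h5.mono (max_le (mxl_le hu) (mxl_le hv))⟩
  · intro u v h hc
    obtain ⟨t, ht1, ht2, ht3⟩ := hB (max (mxl u) (mxl v)) (max u.length v.length) u v
      ((LtN_mxl u).mono (le_max_left _ _)) ((LtN_mxl v).mono (le_max_right _ _))
      (le_max_left _ _) (le_max_right _ _) hc
    exact h3 _ h t ht2 ht1 (by rw [wl_wconj]; exact ht3)

/-- two lists of words are simultaneously conjugate by h -/
def SimC (d : ℕ) (h : BB d) (l l' : List W) : Prop :=
  l'.map (wl d) = (l.map (wl d)).map fun x => h * x * h⁻¹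

theorem prim_mapEq (hT : PrimrecPred fun w : W => Triv d w) :
    PrimrecRel fun (l l' : List W) => l.map (wl d) = l'.map (wl d) := by
  have h : PrimrecRel fun (i : ℕ) (x : List W × List W) => wl d (x.1.getD i []) = wl d (x.2.getD i []) :=
    (prim_wlEq hT).comp ((list_getD []).comp (fst.comp snd) fst) ((list_getD []).comp (snd.comp snd) fst)
  have h2 : PrimrecPred fun x : List W × List W => ∀ i ∈ List.range x.1.length,
      wl d (x.1.getD i []) = wl d (x.2.getD i []) :=
    primrecPred_forall_mem (R := fun (x : List W × List W) (i : ℕ) => wl d (x.1.getD i []) = wl d (x.2.getD i []))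
      (h.comp snd fst) (list_range.comp (list_length.comp fst))
  refine ((Primrec.eq.comp (list_length.comp fst) (list_length.comp snd)).and h2).of_eq ?_
  rintro ⟨l, l'⟩
  dsimp only
  constructor
  · rintro ⟨h3, h4⟩
    apply List.ext_getElem
    · simpa using h3
    · intro i hi hi'
      simp only [List.length_map] at hi hi'
      have := h4 i (List.mem_range.2 hi)
      simpa [List.getD_eq_getElem?_getD, List.getElem?_eq_getElem hi, List.getElem?_eq_getElem hi'] using this
  · intro h3
    have h4 : l.length = l'.length := by simpa using congrArg List.length h3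
    refine ⟨h4, fun i hi => ?_⟩
    rw [List.mem_range] at hi
    have hi' : i < l'.length := h4 ▸ hi
    have h5 := congrArg (fun L : List (BB d) => L[i]?) h3
    simpa [List.getD_eq_getElem?_getD, List.getElem?_eq_getElem hi, List.getElem?_eq_getElem hi'] using h5

/-- search for a simultaneous conjugator of two lists of words -/
theorem exists_simC (hG : Geo d P) (hd : 0 < d) (hT : PrimrecPred fun w : W => Triv d w) :
    ∃ s : List W × List W → Option W, Primrec s ∧
      (∀ l l' t, s (l, l') = some t → SimC d (wl d t) l l' ∧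
        ∀ n, (∀ u ∈ l, LtN n u) → (∀ u ∈ l', LtN n u) → LtN n t) ∧
      (∀ l l', s (l, l') = none → ∀ h : BB d, ¬ SimC d h l l') := by
  obtain ⟨c, hc1, hc2, hc3⟩ := exists_conjW hG hT
  -- candidates from a pair
  let cand : W × W → List W := fun x =>
    ((c x).toList).flatMap fun t => (List.range d).map fun k => t ++ npw x.1 k
  have hcand : Primrec cand := by
    refine list_flatMap (optionToList.comp hc1) ?_
    refine list_map (const (List.range d)) ?_
    exact list_append.comp (snd.comp fst) (prim_npw.comp (fst.comp (fst.comp fst)) snd)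
  let F : List W × List W → List W := fun x =>
    [] :: (List.range x.1.length).flatMap fun i => cand (x.1.getD i [], x.2.getD i [])
  have hF : Primrec F := by
    refine list_cons.comp (const []) (list_flatMap (list_range.comp (list_length.comp fst)) ?_)
    exact hcand.comp (Primrec.pair ((list_getD []).comp (fst.comp fst) snd)
      ((list_getD []).comp (snd.comp fst) snd))
  have hR : PrimrecRel fun (x : List W × List W) (t : W) =>
      (x.1.map fun u => wconj t u).map (wl d) = x.2.map (wl d) :=
    (prim_mapEq hT).comp (list_map (fst.comp fst) (prim_wconj.comp (snd.comp fst) snd)) (snd.comp fst)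
  have hRi : ∀ (l l' : List W) (t : W), ((l.map fun u => wconj t u).map (wl d) = l'.map (wl d)) ↔
      SimC d (wl d t) l l' := by
    intro l l' t
    unfold SimC
    rw [List.map_map, List.map_map, eq_comm]
    have : (wl d ∘ fun u => wconj t u) = ((fun x => wl d t * x * (wl d t)⁻¹) ∘ wl d) := by
      funext u
      simp [wl_wconj]
    rw [this]
  obtain ⟨s, h1, h2, h3⟩ := exists_search hR hF
  refine ⟨s, h1, ?_, ?_⟩
  · intro l l' t h
    obtain ⟨h4, h5⟩ := h2 _ _ h
    refine ⟨(hRi l l' t).1 h5, fun n hl hl' => ?_⟩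
    rcases List.mem_cons.1 h4 with rfl | h4
    · exact LtN.nil n
    · obtain ⟨i, hi, h6⟩ := List.mem_flatMap.1 h4
      obtain ⟨t0, h7, h8⟩ := List.mem_flatMap.1 h6
      obtain ⟨k, -, rfl⟩ := List.mem_map.1 h8
      rw [Option.mem_toList] at h7
      have hu : LtN n (l.getD i []) := by
        rw [List.getD_eq_getElem?_getD]
        cases h9 : l[i]? with
        | none => exact LtN.nil n
        | some u => exact hl u (List.mem_of_getElem? h9)
      have hv : LtN n (l'.getD i []) := by
        rw [List.getD_eq_getElem?_getD]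
        cases h9 : l'[i]? with
        | none => exact LtN.nil n
        | some u => exact hl' u (List.mem_of_getElem? h9)
      exact ((hc2 _ _ _ h7).2 n hu hv).append (hu.npw k)
  · intro l l' h g hg
    have hlen : l'.length = l.length := by
      have := congrArg List.length hg
      simpa using this
    have hgi : ∀ i < l.length, wl d (l'.getD i []) = g * wl d (l.getD i []) * g⁻¹ := by
      intro i hi
      have hi' : i < l'.length := by omega
      have h5 := congrArg (fun L : List (BB d) => L[i]?) hg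
      simpa [List.getD_eq_getElem?_getD, List.getElem?_eq_getElem hi, List.getElem?_eq_getElem hi'] using h5
    by_cases hall : ∀ i < l.length, wl d (l.getD i []) = 1
    · have h6 : SimC d (wl d []) l l' := by
        unfold SimC
        rw [List.map_map]
        apply List.ext_getElem
        · simpa using hlen
        · intro i hi hi'
          simp only [List.length_map] at hi hi'
          have h7 := hgi i (by omega)
          rw [hall i (by omega)] at h7
          have h8 := hall i (by omega)
          simp only [List.getD_eq_getElem?_getD, List.getElem?_eq_getElem hi, List.getElem?_eq_getElem hi',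
            Option.getD_some] at h7 h8
          simp only [List.getElem_map, Function.comp_apply]
          rw [h7, h8]
          simp
      exact h3 _ h [] List.mem_cons_self ((hRi l l' []).2 h6)
    · push Not at hall
      obtain ⟨i, hi, hne⟩ := hall
      have hconj : IsConj (wl d (l.getD i [])) (wl d (l'.getD i [])) := by
        rw [isConj_iff]
        exact ⟨g, (hgi i hi).symm⟩
      cases h4 : c (l.getD i [], l'.getD i []) with
      | none => exact hc3 _ _ h4 hconj
      | some t0 =>
        have h5 := (hc2 _ _ _ h4).1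
        -- t0⁻¹ g commutes with l_i
        have h6 : Commute ((wl d t0)⁻¹ * g) (wl d (l.getD i [])) := by
          have h7 : wl d t0 * wl d (l.getD i []) * (wl d t0)⁻¹ = g * wl d (l.getD i []) * g⁻¹ := by
            rw [h5, hgi i hi]
          show (wl d t0)⁻¹ * g * wl d (l.getD i []) = wl d (l.getD i []) * ((wl d t0)⁻¹ * g)
          have h8 := congrArg (fun x => (wl d t0)⁻¹ * x * g) h7
          simp only [mul_assoc, inv_mul_cancel_left, inv_mul_cancel, mul_one] at h8 ⊢
          exact h8.symm
        obtain ⟨m, hm, h9⟩ := commute_iff_pow hG hd hne h6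
        have h10 : g = wl d (t0 ++ npw (l.getD i []) m) := by
          rw [wl_append, wl_npw, ← h9]
          group
        refine h3 _ h (t0 ++ npw (l.getD i []) m) ?_ ((hRi l l' _).2 (h10 ▸ hg))
        apply List.mem_cons_of_mem
        refine List.mem_flatMap.2 ⟨i, List.mem_range.2 hi, ?_⟩
        refine List.mem_flatMap.2 ⟨t0, by rw [Option.mem_toList]; exact h4, ?_⟩
        exact List.mem_map.2 ⟨m, List.mem_range.2 hm, rfl⟩

/-! ### decoding -/

/-- nondegeneracy is decidable -/
theorem prim_Nd (hT : PrimrecPred fun w : W => Triv d w) :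
    PrimrecPred fun x : W × W × W => Nd (wl d x.1) (wl d x.2.1) (wl d x.2.2) := by
  have hc : PrimrecRel fun u v : W => Commute (wl d u) (wl d v) := by
    refine ((prim_wlEq hT).comp (list_append.comp fst snd) (list_append.comp snd fst)).of_eq ?_
    rintro ⟨u, v⟩
    rw [wl_append, wl_append]
    exact Iff.rfl
  have h1 : PrimrecPred fun x : W × W × W => ¬ (wl d x.1 = wl d []) :=
    ((prim_wlEq hT).comp fst (const [])).not
  exact h1.and (((hc.comp fst (fst.comp snd)).and (hc.comp fst (snd.comp snd))).not)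

/-- search for a decoding of a test word -/
theorem exists_decW (hG : Geo d P) (hT : PrimrecPred fun w : W => Triv d w) :
    ∃ s : W → Option (W × W × W), Primrec s ∧
      (∀ u a y z, s u = some (a, y, z) → Nd (wl d a) (wl d y) (wl d z) ∧
        wl d u = Wt P (wl d a) (wl d y) (wl d z) ∧ ∀ n, LtN n u → LtN n a ∧ LtN n y ∧ LtN n z) ∧
      (∀ u, s u = none → ¬ ∃ a y z : BB d, Nd a y z ∧ wl d u = Wt P a y z) := by
  obtain ⟨C, Q, hB⟩ := hG.decB
  let tr : List W → W × W × W := fun t => (t.getD 0 [], t.getD 1 [], t.getD 2 [])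
  have htr : Primrec tr := Primrec.pair ((list_getD []).comp Primrec.id (const 0))
    (Primrec.pair ((list_getD []).comp Primrec.id (const 1)) ((list_getD []).comp Primrec.id (const 2)))
  have hR : PrimrecRel fun (u : W) (t : List W) => Nd (wl d (tr t).1) (wl d (tr t).2.1) (wl d (tr t).2.2) ∧
      wl d u = wl d (wWt P (tr t).1 (tr t).2.1 (tr t).2.2) :=
    ((prim_Nd hT).comp (htr.comp snd)).and
      ((prim_wlEq hT).comp fst ((prim_wWt P).comp (htr.comp snd)))
  have hl : Primrec fun u : W => C * Q ^ u.length :=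
    nat_mul.comp (const C) ((prim_pow Q).comp list_length)
  obtain ⟨s, h1, h2, h3⟩ := exists_search_tuple hR prim_mxl hl (const 3)
  refine ⟨fun u => (s u).map tr, option_map h1 (htr.comp snd), ?_, ?_⟩
  · intro u a y z h
    obtain ⟨t, h4, h5⟩ := Option.map_eq_some_iff.1 h
    obtain ⟨h6, h7, h8, h9⟩ := h2 _ _ h4
    rw [h5] at h8 h9
    refine ⟨h8, by rw [← wl_wWt]; exact h9, fun n hn => ?_⟩
    have h10 : ∀ i, LtN n (t.getD i []) := by
      intro i
      rw [List.getD_eq_getElem?_getD]
      cases h9 : t[i]? with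
      | none => exact LtN.nil n
      | some w => exact ((h7 w (List.mem_of_getElem? h9)).2).mono (mxl_le hn)
    have h11 : a = t.getD 0 [] ∧ y = t.getD 1 [] ∧ z = t.getD 2 [] := by
      have := h5
      simp only [tr, Prod.mk.injEq] at this
      exact ⟨this.1.symm, this.2.1.symm, this.2.2.symm⟩
    rw [h11.1, h11.2.1, h11.2.2]
    exact ⟨h10 0, h10 1, h10 2⟩
  · intro u h hex
    have h4 : s u = none := Option.map_eq_none_iff.1 h
    obtain ⟨α, β, γ, hα, hβ, hγ, lα, lβ, lγ, h5⟩ := hB (mxl u) u.length u (LtN_mxl u) le_rfl hex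
    obtain ⟨a, y, z, hnd, hu⟩ := hex
    have h6 : Nd (wl d α) (wl d β) (wl d γ) := by
      apply Nd_of_ne_one (P := P)
      rw [← h5, hu]
      exact ne_one_of_Nd hG hnd
    refine h3 u h4 [α, β, γ] rfl ?_ ⟨h6, ?_⟩
    · intro w hw
      simp only [List.mem_cons, List.not_mem_nil, or_false] at hw
      rcases hw with rfl | rfl | rfl
      · exact ⟨lα, hα⟩
      · exact ⟨lβ, hβ⟩
      · exact ⟨lγ, hγ⟩
    · rw [wl_wWt]
      exact h5

/-- decoding with a given frame element -/
theorem exists_decA (hG : Geo d P) (hd : 0 < d) (hd1 : ¬ (d : ℤ) ∣ 1) (hT : PrimrecPred fun w : W => Triv d w) :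
    ∃ s : W × W → Option (W × W), Primrec s ∧
      (∀ a u y z, s (a, u) = some (y, z) → Nd (wl d a) (wl d y) (wl d z) ∧
        wl d u = Wt P (wl d a) (wl d y) (wl d z) ∧ ∀ n, LtN n u → LtN n y ∧ LtN n z) ∧
      (∀ a u, s (a, u) = none → ¬ ∃ y z : BB d, Nd (wl d a) y z ∧ wl d u = Wt P (wl d a) y z) := by
  obtain ⟨D, hD1, hD2, hD3⟩ := exists_decW hG hT
  have hR : PrimrecRel fun (x : W × W) (k : ℕ) => ∃ t ∈ (D x.2).toList,
      wl d (wconj (npw x.2 k) t.1) = wl d x.1 := by
    refine primrecPred_exists_mem (R := fun (x : (W × W) × ℕ) (t : W × W × W) =>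
      wl d (wconj (npw x.1.2 x.2) t.1) = wl d x.1.1) ?_ (optionToList.comp (hD1.comp (snd.comp fst)))
    exact (prim_wlEq hT).comp (prim_wconj.comp (prim_npw.comp (snd.comp (fst.comp fst)) (snd.comp fst))
      (fst.comp snd)) (fst.comp (fst.comp fst))
  obtain ⟨s, h1, h2, h3⟩ := exists_search hR (const (List.range d))
  refine ⟨fun x => (s x).bind fun k => (D x.2).map fun t =>
    (wconj (npw x.2 k) t.2.1, wconj (npw x.2 k) t.2.2), ?_, ?_, ?_⟩
  · refine option_bind h1 (option_map (hD1.comp (snd.comp fst)) ?_)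
    have h4 : Primrec fun x : ((W × W) × ℕ) × (W × W × W) => npw x.1.1.2 x.1.2 :=
      prim_npw.comp (snd.comp (fst.comp fst)) (snd.comp fst)
    exact Primrec.pair (prim_wconj.comp h4 (fst.comp (snd.comp snd)))
      (prim_wconj.comp h4 (snd.comp (snd.comp snd)))
  · intro a u y z h
    obtain ⟨k, hk, h4⟩ := Option.bind_eq_some_iff.1 h
    obtain ⟨t, ht, h5⟩ := Option.map_eq_some_iff.1 h4
    obtain ⟨-, t', ht', h6⟩ := h2 _ _ hk
    rw [Option.mem_toList] at ht'
    have htt : t' = t := by
      have : some t' = some t := by rw [← ht', ← ht]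
      exact Option.some.inj this
    subst htt
    obtain ⟨α, β, γ⟩ := t'
    obtain ⟨h7, h8, h9⟩ := hD2 _ _ _ _ ht
    simp only [Prod.mk.injEq] at h5
    obtain ⟨rfl, rfl⟩ := h5
    set g := wl d (npw u k) with hg
    have ha : wl d a = g * wl d α * g⁻¹ := by
      rw [← h6, wl_wconj]
    have hcu : g * wl d u * g⁻¹ = wl d u := by
      rw [hg, wl_npw]
      have : Commute (wl d u ^ k) (wl d u) := (Commute.refl (wl d u)).pow_left k
      rw [this.eq]
      simp
    refine ⟨?_, ?_, fun n hn => ⟨(hn.npw k).wconj (h9 n hn).2.1, (hn.npw k).wconj (h9 n hn).2.2⟩⟩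
    · rw [ha, wl_wconj, wl_wconj]
      exact Nd_conj g h7
    · rw [ha, wl_wconj, wl_wconj, ← conj_Wt, ← h8, hcu]
  · intro a u h hex
    obtain ⟨y, z, hnd, hu⟩ := hex
    cases hDu : D u with
    | none => exact hD3 u hDu ⟨_, y, z, hnd, hu⟩
    | some t =>
      obtain ⟨α, β, γ⟩ := t
      obtain ⟨h7, h8, h9⟩ := hD2 _ _ _ _ hDu
      have hs : s (a, u) = none := by
        cases hsu : s (a, u) with
        | none => rfl
        | some k =>
          dsimp only at h
          rw [hsu, Option.bind_some, hDu] at h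
          simp at h
      -- the two decodings are conjugate
      obtain ⟨-, x, hx1, hx2, hx3⟩ := hG.inj (wl d α) (wl d β) (wl d γ) (wl d a) y z 1 1 h7 hd1 (by
        rw [← h8, ← hu]; simp)
      have hcx : Commute x (wl d u) := by
        have h10 : Wt P (wl d a) y z = x * Wt P (wl d α) (wl d β) (wl d γ) * x⁻¹ := by
          rw [conj_Wt, ← hx1, ← hx2, ← hx3]
        rw [← hu, ← h8] at h10
        show x * wl d u = wl d u * x
        conv_rhs => rw [h10]
        group
      have hune : wl d u ≠ 1 := by rw [hu]; exact ne_one_of_Nd hG hnd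
      obtain ⟨m, hm, hxm⟩ := commute_iff_pow hG hd hune hcx
      refine h3 _ hs m (List.mem_range.2 hm) ⟨(α, β, γ), by rw [Option.mem_toList]; exact hDu, ?_⟩
      rw [wl_wconj, wl_npw, ← hxm, hx1]

/-- recognition of powers of conjugates of test words -/
theorem exists_pcW (hG : Geo d P) (hp : d.Prime) (hT : PrimrecPred fun w : W => Triv d w) :
    ∃ s : W → Option (ℕ × W × W × W), Primrec s ∧
      (∀ u k a y z, s u = some (k, a, y, z) → 0 < k ∧ k < d ∧ Nd (wl d a) (wl d y) (wl d z) ∧
        wl d u ^ k = Wt P (wl d a) (wl d y) (wl d z) ∧ ∀ n, LtN n u → LtN n a ∧ LtN n y ∧ LtN n z) ∧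
      (∀ u, s u = none → ¬ ∃ (g a y z : BB d) (k : ℤ), Nd a y z ∧ ¬ (d : ℤ) ∣ k ∧
        wl d u = g * Wt P a y z ^ k * g⁻¹) := by
  obtain ⟨D, hD1, hD2, hD3⟩ := exists_decW hG hT
  have hR : PrimrecRel fun (u : W) (k : ℕ) => 0 < k ∧ (D (npw u k)).isSome = true :=
    (Primrec.nat_lt.comp (const 0) snd).and
      (Primrec.eq.comp (option_isSome.comp (hD1.comp (prim_npw.comp fst snd))) (const true))
  obtain ⟨s, h1, h2, h3⟩ := exists_search hR (const (List.range d))
  refine ⟨fun u => (s u).bind fun k => (D (npw u k)).map fun t => (k, t), ?_, ?_, ?_⟩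
  · exact option_bind h1 (option_map (hD1.comp (prim_npw.comp fst snd)) (Primrec.pair (snd.comp fst) snd))
  · intro u k a y z h
    obtain ⟨k', hk, h4⟩ := Option.bind_eq_some_iff.1 h
    obtain ⟨t, ht, h5⟩ := Option.map_eq_some_iff.1 h4
    simp only [Prod.mk.injEq] at h5
    obtain ⟨rfl, rfl⟩ := h5
    obtain ⟨h6, h7, -⟩ := h2 _ _ hk
    obtain ⟨h8, h9, h10⟩ := hD2 _ _ _ _ ht
    exact ⟨h7, List.mem_range.1 h6, h8, by rw [← wl_npw]; exact h9, fun n hn => h10 n (hn.npw k')⟩
  · rintro u h ⟨g, a, y, z, k, hnd, hk, hu⟩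
    -- inverse of k modulo d
    have hdpos : 0 < d := hp.pos
    have hcop : IsCoprime (d : ℤ) k := (Prime.coprime_iff_not_dvd (Nat.prime_iff_prime_int.1 hp)).2 hk
    obtain ⟨r, t, hrt⟩ := hcop
    -- t * k = 1 - r * d
    have hdz : (d : ℤ) ≠ 0 := by exact_mod_cast hdpos.ne'
    set m := (t % d).toNat with hm
    have h0 := Int.emod_nonneg t hdz
    have hm2 : (m : ℤ) = t % d := Int.toNat_of_nonneg h0
    have hmlt : m < d := by
      have := Int.emod_lt_of_pos t (by exact_mod_cast hdpos : (0 : ℤ) < d)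
      omega
    have hdiv : (d : ℤ) ∣ (m : ℤ) * k - 1 := by
      rw [hm2]
      have e1 : t % (d : ℤ) = t - d * (t / d) := by
        have := Int.emod_add_mul_ediv t d
        linarith
      rw [e1]
      exact ⟨-r - (t / d) * k, by linear_combination hrt⟩
    have hm0 : 0 < m := by
      rcases Nat.eq_zero_or_pos m with h4 | h4
      · rw [h4] at hdiv
        have h5 : (d : ℤ) ∣ 1 := by
          have := dvd_neg.2 hdiv
          simpa using this
        have h6 := Int.eq_one_of_dvd_one (by positivity) h5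
        have h7 : d = 1 := by exact_mod_cast h6
        exact absurd hp (h7 ▸ Nat.not_prime_one)
      · exact h4
    have hum : wl d (npw u m) = Wt P (g * a * g⁻¹) (g * y * g⁻¹) (g * z * g⁻¹) := by
      rw [wl_npw, hu, ← conj_Wt]
      have e2 : (g * Wt P a y z ^ k * g⁻¹) ^ m = g * (Wt P a y z ^ k) ^ m * g⁻¹ := by
        rw [conj_pow]
      rw [e2]
      congr 2
      obtain ⟨q, hq⟩ := hdiv
      have e3 : k * (m : ℤ) = 1 + d * q := by linarith
      rw [← zpow_natCast, ← zpow_mul, e3, zpow_add, zpow_mul, zpow_natCast, pow_d_eq_one, one_zpow, mul_one,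
        zpow_one]
    have hsome : (D (npw u m)).isSome = true := by
      rw [Option.isSome_iff_ne_none]
      intro h4
      exact hD3 _ h4 ⟨_, _, _, Nd_conj g hnd, hum⟩
    have hs : s u = none := by
      cases hsu : s u with
      | none => rfl
      | some k' =>
        obtain ⟨-, -, h5⟩ := h2 _ _ hsu
        obtain ⟨t', ht'⟩ := Option.isSome_iff_exists.1 h5
        dsimp only at h
        rw [hsu, Option.bind_some, ht'] at h
        simp at h
    exact h3 u hs m (List.mem_range.2 hmlt) ⟨hm0, hsome⟩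

end Pool.Agent.helper47.PV
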