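import Pool.Agent.helper47.PV.W2
import Pool.Agent.helper24.PV.G6
/-! PV project (MP_c0bc55_al), block W, part 3: normal form data are sound and complete. -/
set_option linter.unusedSectionVars false
set_option linter.unusedVariables false
namespace Pool.Agent.helper47.PV
open Pool.Agent.helper50.BW (W Fd Triv)
open Pool.Agent.helper4.PV (BB wl Ltr Par cm Wt Nd Geo)
open Pool.Agent.helper24.PV

variable {d : ℕ} {P : Par} {T : RM}

/-- the map from words to elements respects the operations -/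
theorem wl_hom (a b : W) : Ops.Hom (opsW P a b) (ops P (wl d a) (wl d b)) (wl d) := by
  refine ⟨fun x y => ?_, rfl, rfl⟩
  show wl d (wWt P a (wWt P a b x) y) = Wt P (wl d a) (Wt P (wl d a) (wl d b) (wl d x)) (wl d y)
  rw [wl_wWt, wl_wWt]

/-- the element of the zipper -/
theorem wl_N (t : Dt) : wl d (t.N P) = (ops P (wl d t.a) (wl d t.b)).zip
    ((ops P (wl d t.a) (wl d t.b)).enc (t.l1.map (wl d)) (wl d t.L0))
    ((ops P (wl d t.a) (wl d t.b)).marks (t.l1.map (wl d)).length (wl d t.a0))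
    ((ops P (wl d t.a) (wl d t.b)).enc (t.l2.map (wl d)) (wl d t.R0))
    ((ops P (wl d t.a) (wl d t.b)).marks (t.l2.map (wl d)).length (wl d t.b0)) := by
  unfold Dt.N
  rw [(wl_hom t.a t.b).zip, (wl_hom t.a t.b).enc, (wl_hom t.a t.b).enc, (wl_hom t.a t.b).marks,
    (wl_hom t.a t.b).marks, List.length_map, List.length_map]

/-- the names of the data -/
theorem map_names (t : Dt) : ((t.l1.map (wl d) ++ t.l2.map (wl d)).map
    (abG : BB d → Abelianization (BB d))) = (t.l1 ++ t.l2).map fun y => abG (wl d y) := by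
  rw [← List.map_append, List.map_map]
  rfl

/-- the window of the data -/
def winD (d : ℕ) (t : Dt) : Win (BB d) (Abelianization (BB d)) :=
  ⟨wl d t.L0, wl d t.a0, wl d t.R0, wl d t.b0, ((t.l1 ++ t.l2).map fun y => abG (wl d y) : List _)⟩

theorem hasWin_N {t : Dt} (h1 : ¬ (ops P (wl d t.a) (wl d t.b)).Pop (wl d t.L0) (wl d t.a0))
    (h2 : ¬ (ops P (wl d t.a) (wl d t.b)).Pop (wl d t.R0) (wl d t.b0)) :
    (ops P (wl d t.a) (wl d t.b)).HasWin abG (wl d (t.N P)) (winD d t) := by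
  refine ⟨t.l1.map (wl d), t.l2.map (wl d), ?_, h1, h2, ?_⟩
  · exact wl_N t
  · show (((t.l1 ++ t.l2).map fun y => abG (wl d y) : List _) : Multiset (Abelianization (BB d))) = _
    rw [map_names]

theorem card_winD (t : Dt) : (winD d t).S.card = (t.l1 ++ t.l2).length := by
  show (((t.l1 ++ t.l2).map fun y => abG (wl d y) : List _) : Multiset (Abelianization (BB d))).card = _
  rw [Multiset.coe_card, List.length_map]

/-- the element of a configuration -/
theorem wl_x {t : Dt} (h : t.kind ≠ 0) : wl d (t.x P) = Wt P (wl d t.a) (wl d t.b) (wl d (t.Y P)) := by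
  unfold Dt.x
  rw [if_neg h, wl_wWt]

theorem wl_x0 {t : Dt} (h : t.kind = 0) : wl d (t.x P) = wl d t.a := by
  unfold Dt.x
  rw [if_pos h]

theorem wl_Y1 {t : Dt} (h : t.kind = 1) : wl d (t.Y P) = wl d t.D := by
  unfold Dt.Y
  rw [if_pos h]

theorem wl_Y2 {t : Dt} (h : t.kind = 2) :
    wl d (t.Y P) = (ops P (wl d t.a) (wl d t.b)).nd (wl d t.L0) (wl d t.D) := by
  unfold Dt.Y
  rw [if_neg (by omega), if_pos h, (wl_hom t.a t.b).nd]

theorem wl_Y3 {t : Dt} (h : t.kind = 3) :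
    wl d (t.Y P) = (ops P (wl d t.a) (wl d t.b)).nd (wl d (t.N P)) (wl d t.D) := by
  unfold Dt.Y
  rw [if_neg (by omega), if_neg (by omega), (wl_hom t.a t.b).nd]

/-- **W3.** soundness -/
theorem nrmD_sound {adv : Finset ℕ} (hadv : ∀ k ∈ adv, ¬ T.Halts k) {t : Dt} (h : NrmD P T d adv t) :
    NF P T d (wl d (t.x P)) := by
  unfold NrmD at h
  rcases h with ⟨hk, h1, h2⟩ | ⟨hk, h1, h2⟩ | ⟨hk, h1, h2, h3⟩ | ⟨hk, h1, h2, h3, h4, h5⟩
  · rw [wl_x0 hk]
    exact NF.iso _ (fun h3 => h1 ((wl_eq_one_iff _).1 h3)) h2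
  · rw [wl_x (by omega), wl_Y1 hk]
    exact NF.cfg _ _ _ h1 (Ops.Nrm.n1 _ h2)
  · rw [wl_x (by omega), wl_Y2 hk]
    exact NF.cfg _ _ _ h1 (Ops.Nrm.n2 _ _ h2 h3)
  · rw [wl_x (by omega), wl_Y3 hk]
    refine NF.cfg _ _ _ h1 (Ops.Nrm.n3 _ _ (winD d t) (hasWin_N h2 h3) ?_ ?_)
    · exact Multiset.coe_nodup.2 h4
    · rw [card_winD]
      rcases h5 with h5 | ⟨h5, h6, h7, h8⟩
      · left
        exact h5
      · right
        exact ⟨h5, h6, h7, hadv _ h8⟩

/-- **W5.** completeness for isolated elements -/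
theorem nrmD_complete_iso (adv : Finset ℕ) {x : BB d} (hx : x ≠ 1) (h : ¬ IsWt P d x) :
    ∃ t, NrmD P T d adv t ∧ wl d (t.x P) = x := by
  obtain ⟨α, rfl⟩ := wl_surj x
  refine ⟨(0, (α, []), ([], []), ([], []), ([], []), []), ?_, ?_⟩
  · unfold NrmD
    exact Or.inl ⟨rfl, fun h1 => hx ((wl_eq_one_iff _).2 h1), h⟩
  · exact wl_x0 rfl

theorem enc_mem (hG : Geo d P) (hd : 2 ≤ d) {n : ℕ} {a b : BB d} (hab : ¬ Commute a b)
    (ha : a ∈ Bn n d) (hb : b ∈ Bn n d) (l : List (BB d)) (e : BB d)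
    (h : (ops P a b).enc l e ∈ Bn n d) : ∀ y ∈ l, y ∈ Bn n d := by
  induction l with
  | nil => simp
  | cons x l ih =>
    have h1 : (ops P a b).nd x ((ops P a b).enc l e) ∈ Bn n d := h
    rw [nd_mem_iff hG hd hab ha hb] at h1
    intro y hy
    rcases List.mem_cons.1 hy with rfl | hy
    · exact h1.1
    · exact ih h1.2 y hy

theorem exists_words (l : List (BB d)) : ∃ l' : List W, l'.map (wl d) = l := by
  induction l with
  | nil => exact ⟨[], rfl⟩
  | cons x l ih =>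
    obtain ⟨l', rfl⟩ := ih
    obtain ⟨α, rfl⟩ := wl_surj x
    exact ⟨α :: l', rfl⟩

/-- **W4.** completeness for configurations of rank `n` -/
theorem nrmD_complete (hG : Geo d P) (hd : d.Prime) {n : ℕ} {adv : Finset ℕ}
    (hadv : ∀ k ≤ d ^ n, ¬ T.Halts k → k ∈ adv) {a b Y : BB d} (ha : a ∈ Bn n d) (hb : b ∈ Bn n d)
    (hY : Y ∈ Bn n d) (hab : ¬ Commute a b) (h : (ops P a b).Nrm T abG Y) :
    ∃ t, NrmD P T d adv t ∧ wl d (t.x P) = Wt P a b Y := by
  obtain ⟨α, rfl⟩ := wl_surj a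
  obtain ⟨β, rfl⟩ := wl_surj b
  cases h with
  | n1 Y h1 =>
    obtain ⟨δ, rfl⟩ := wl_surj Y
    refine ⟨(1, (α, β), ([], []), ([], []), ([], []), δ), ?_, ?_⟩
    · unfold NrmD
      exact Or.inr (Or.inl ⟨rfl, hab, h1⟩)
    · rw [wl_x (by show (1 : ℕ) ≠ 0; omega), wl_Y1 rfl]
      rfl
  | n2 N D h1 h2 =>
    obtain ⟨δ, rfl⟩ := wl_surj D
    obtain ⟨ν, rfl⟩ := wl_surj N
    refine ⟨(2, (α, β), (ν, []), ([], []), ([], []), δ), ?_, ?_⟩
    · unfold NrmD
      exact Or.inr (Or.inr (Or.inl ⟨rfl, hab, h1, h2⟩))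
    · rw [wl_x (by show (2 : ℕ) ≠ 0; omega), wl_Y2 rfl]
      rfl
  | n3 N D Wi hW hS hD =>
    obtain ⟨δ, rfl⟩ := wl_surj D
    obtain ⟨L0, a0, R0, b0, S⟩ := Wi
    obtain ⟨l1, l2, rfl, hp1, hp2, hS'⟩ := hW
    dsimp only at *
    subst hS'
    obtain ⟨ll0, rfl⟩ := wl_surj L0
    obtain ⟨aa0, rfl⟩ := wl_surj a0
    obtain ⟨rr0, rfl⟩ := wl_surj R0
    obtain ⟨bb0, rfl⟩ := wl_surj b0
    obtain ⟨m1, rfl⟩ := exists_words l1
    obtain ⟨m2, rfl⟩ := exists_words l2
    have hmn : ((m1.map (wl d) ++ m2.map (wl d)).map (abG : BB d → Abelianization (BB d))) =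
        (m1 ++ m2).map fun y => abG (wl d y) := by
      rw [← List.map_append, List.map_map]
      rfl
    have hnd : ((m1 ++ m2).map fun y => (abG (wl d y) : Abelianization (BB d))).Nodup := by
      rw [← hmn]
      exact Multiset.coe_nodup.1 hS
    have hcard : (((m1.map (wl d) ++ m2.map (wl d)).map (abG : BB d → Abelianization (BB d)) :
        List _) : Multiset (Abelianization (BB d))).card = (m1 ++ m2).length := by
      rw [hmn, Multiset.coe_card, List.length_map]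
    rw [hcard] at hD
    refine ⟨(3, (α, β), (ll0, aa0), (rr0, bb0), (m1, m2), δ), ?_, ?_⟩
    · unfold NrmD
      refine Or.inr (Or.inr (Or.inr ⟨rfl, hab, hp1, hp2, hnd, ?_⟩))
      rcases hD with hD | ⟨h1, h2, h3, h4⟩
      · left
        exact hD
      · right
        refine ⟨h1, h2, h3, hadv _ ?_ h4⟩
        -- the number of names is at most `d ^ n`
        have hN := ((nd_mem_iff hG hd.two_le hab ha hb).1 hY).1
        have hz := (nd_mem_iff hG hd.two_le hab ha hb).1 hN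
        have hz1 := ((nd_mem_iff hG hd.two_le hab ha hb).1 hz.1).1
        have hz2 := ((nd_mem_iff hG hd.two_le hab ha hb).1 hz.2).1
        have e1 := enc_mem hG hd.two_le hab ha hb _ _ hz1
        have e2 := enc_mem hG hd.two_le hab ha hb _ _ hz2
        have h5 : ((m1.map (wl d) ++ m2.map (wl d)) : List (BB d)).length ≤ d ^ n := by
          refine names_le hd.pos ?_ ?_
          · intro y hy
            rcases List.mem_append.1 hy with hy | hy
            · exact e1 y hy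
            · exact e2 y hy
          · rw [hmn]
            exact hnd
        rw [← List.map_append, List.length_map] at h5
        exact h5
    · rw [wl_x (by show (3 : ℕ) ≠ 0; omega), wl_Y3 rfl, wl_N]
      rfl

end Pool.Agent.helper47.PV
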