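import Pool.Agent.helper47.PV.W3
/-! PV project (MP_c0bc55_al), block W, part 4: `SameD` is the relation `SameB` of the elements. -/
set_option linter.unusedSectionVars false
set_option linter.unusedVariables false
namespace Pool.Agent.helper47.PV
open Pool.Agent.helper50.BW (W Fd Triv)
open Pool.Agent.helper4.PV (BB wl Ltr Par cm Wt Nd Geo)
open Pool.Agent.helper24.PV

variable {d : ℕ} {P : Par} {T : RM}

/-- windows are compatible with conjugation -/
theorem hasWin_conj (g a b : BB d) {N : BB d} {Wi : Win (BB d) (Abelianization (BB d))}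
    (h : (ops P a b).HasWin abG N Wi) :
    (ops P (g * a * g⁻¹) (g * b * g⁻¹)).HasWin abG (g * N * g⁻¹)
      ⟨g * Wi.L0 * g⁻¹, g * Wi.a0 * g⁻¹, g * Wi.R0 * g⁻¹, g * Wi.b0 * g⁻¹, Wi.S⟩ :=
  Ops.Hom.hasWin (MulAut.conj g).toEquiv (conj_hom P g a b) (fun y => abG_conj g y) h

theorem conj_inv_conj (g x : BB d) : g⁻¹ * (g * x * g⁻¹) * g⁻¹⁻¹ = x := by group

theorem conj_conj_inv (g x : BB d) : g * (g⁻¹ * x * g⁻¹⁻¹) * g⁻¹ = x := by group

/-- windows of the conjugated zipper -/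
theorem hasWin_conj' {g a b a' b' : BB d} (ha : a' = g * a * g⁻¹) (hb : b' = g * b * g⁻¹) {N : BB d}
    {Wi : Win (BB d) (Abelianization (BB d))}
    (h : (ops P a' b').HasWin abG N Wi) :
    (ops P a b).HasWin abG (g⁻¹ * N * g⁻¹⁻¹)
      ⟨g⁻¹ * Wi.L0 * g⁻¹⁻¹, g⁻¹ * Wi.a0 * g⁻¹⁻¹, g⁻¹ * Wi.R0 * g⁻¹⁻¹, g⁻¹ * Wi.b0 * g⁻¹⁻¹, Wi.S⟩ := by
  subst ha hb
  have h1 := hasWin_conj g⁻¹ _ _ h
  rwa [conj_inv_conj, conj_inv_conj] at h1

theorem nd_conj (g a b x y : BB d) : g * (ops P a b).nd x y * g⁻¹ =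
    (ops P (g * a * g⁻¹) (g * b * g⁻¹)).nd (g * x * g⁻¹) (g * y * g⁻¹) :=
  (conj_hom P g a b).nd x y

/-- the relation `Same` is compatible with conjugation -/
theorem same_conj (g a b : BB d) {Y Y' : BB d} (h : (ops P a b).Same abG Y Y') :
    (ops P (g * a * g⁻¹) (g * b * g⁻¹)).Same abG (g * Y * g⁻¹) (g * Y' * g⁻¹) := by
  cases h with
  | refl Y => exact Ops.Same.refl _
  | win N N' D Wi h1 h2 =>
    rw [nd_conj, nd_conj]
    exact Ops.Same.win _ _ _ _ (hasWin_conj g a b h1) (hasWin_conj g a b h2)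

theorem commute_conj_iff (g a b : BB d) : Commute (g * a * g⁻¹) (g * b * g⁻¹) ↔ Commute a b := by
  show g * a * g⁻¹ * (g * b * g⁻¹) = g * b * g⁻¹ * (g * a * g⁻¹) ↔ a * b = b * a
  constructor
  · intro h
    have h1 : g * (a * b) * g⁻¹ = g * (b * a) * g⁻¹ := by
      calc g * (a * b) * g⁻¹ = g * a * g⁻¹ * (g * b * g⁻¹) := by group
        _ = g * b * g⁻¹ * (g * a * g⁻¹) := h
        _ = _ := by group
    exact mul_left_cancel (mul_right_cancel h1)
  · intro h
    calc g * a * g⁻¹ * (g * b * g⁻¹) = g * (a * b) * g⁻¹ := by group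
      _ = g * (b * a) * g⁻¹ := by rw [h]
      _ = _ := by group

/-- a zipper with a window is a zipper -/
theorem isZip_of_hasWin {a b N : BB d} {Wi : Win (BB d) (Abelianization (BB d))}
    (h : (ops P a b).HasWin abG N Wi) : (ops P a b).IsZip N := by
  obtain ⟨l1, l2, rfl, -⟩ := h
  exact ⟨_, _, _, _, rfl⟩

theorem isZip_conj {g a b N : BB d} (h : (ops P (g * a * g⁻¹) (g * b * g⁻¹)).IsZip (g * N * g⁻¹)) :
    (ops P a b).IsZip N := by
  obtain ⟨L, x, R, y, h1⟩ := h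
  refine ⟨g⁻¹ * L * g⁻¹⁻¹, g⁻¹ * x * g⁻¹⁻¹, g⁻¹ * R * g⁻¹⁻¹, g⁻¹ * y * g⁻¹⁻¹, ?_⟩
  have h2 : g⁻¹ * (g * N * g⁻¹) * g⁻¹⁻¹ = g⁻¹ * ((ops P (g * a * g⁻¹) (g * b * g⁻¹)).zip L x R y) * g⁻¹⁻¹ := by
    rw [h1]
  rw [conj_inv_conj] at h2
  rw [h2]
  have h3 := (conj_hom P g⁻¹ (g * a * g⁻¹) (g * b * g⁻¹)).zip L x R y
  rw [conj_inv_conj, conj_inv_conj] at h3
  exact h3

/-- the shape of normal form data with a pair -/
theorem NrmD_frame {adv : Finset ℕ} {t : Dt} (h : NrmD P T d adv t) (hk : t.kind ≠ 0) :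
    ¬ Commute (wl d t.a) (wl d t.b) := by
  unfold NrmD at h
  rcases h with h | h | h | h
  · exact absurd h.1 hk
  · exact h.2.1
  · exact h.2.1
  · exact h.2.1

theorem NrmD_kind {adv : Finset ℕ} {t : Dt} (h : NrmD P T d adv t) :
    t.kind = 0 ∨ t.kind = 1 ∨ t.kind = 2 ∨ t.kind = 3 := by
  unfold NrmD at h
  rcases h with h | h | h | h
  · exact Or.inl h.1
  · exact Or.inr (Or.inl h.1)
  · exact Or.inr (Or.inr (Or.inl h.1))
  · exact Or.inr (Or.inr (Or.inr h.1))

theorem NrmD_0 {adv : Finset ℕ} {t : Dt} (h : NrmD P T d adv t) (hk : t.kind = 0) :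
    wl d t.a ≠ 1 ∧ ¬ IsWt P d (wl d t.a) := by
  unfold NrmD at h
  rcases h with h | h | h | h
  · exact ⟨fun h1 => h.2.1 ((wl_eq_one_iff _).1 h1), h.2.2⟩
  · omega
  · omega
  · omega

theorem NrmD_1 {adv : Finset ℕ} {t : Dt} (h : NrmD P T d adv t) (hk : t.kind = 1) :
    ∀ x y, wl d t.D ≠ (ops P (wl d t.a) (wl d t.b)).nd x y := by
  unfold NrmD at h
  rcases h with h | h | h | h
  · omega
  · exact h.2.2
  · omega
  · omega

theorem NrmD_2 {adv : Finset ℕ} {t : Dt} (h : NrmD P T d adv t) (hk : t.kind = 2) :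
    ¬ (ops P (wl d t.a) (wl d t.b)).IsZip (wl d t.L0) := by
  unfold NrmD at h
  rcases h with h | h | h | h
  · omega
  · omega
  · exact h.2.2.1
  · omega

theorem NrmD_3 {adv : Finset ℕ} {t : Dt} (h : NrmD P T d adv t) (hk : t.kind = 3) :
    (ops P (wl d t.a) (wl d t.b)).HasWin abG (wl d (t.N P)) (winD d t) := by
  unfold NrmD at h
  rcases h with h | h | h | h
  · omega
  · omega
  · omega
  · exact hasWin_N h.2.2.1 h.2.2.2.1

/-- the core of W6 -/
theorem sameD_core (hG : Geo d P) (hd : d.Prime) {adv : Finset ℕ} {t t' : Dt}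
    (h : NrmD P T d adv t) (h' : NrmD P T d adv t') (hk : t.kind ≠ 0) (hk' : t'.kind ≠ 0)
    {g Y'' : BB d} (ha : wl d t'.a = g * wl d t.a * g⁻¹) (hb : wl d t'.b = g * wl d t.b * g⁻¹)
    (hs : (ops P (wl d t.a) (wl d t.b)).Same abG (wl d (t.Y P)) Y'')
    (hY : wl d (t'.Y P) = g * Y'' * g⁻¹) : SameD d t t' := by
  have hfr := NrmD_frame h hk
  have hfr' := NrmD_frame h' hk'
  have hA := free_ops hG hd.two_le hfr
  have hA' := free_ops hG hd.two_le hfr'
  -- pairs over the conjugated frame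
  have hpair : ∀ x y : BB d, g * (ops P (wl d t.a) (wl d t.b)).nd x y * g⁻¹ =
      (ops P (wl d t'.a) (wl d t'.b)).nd (g * x * g⁻¹) (g * y * g⁻¹) := by
    intro x y
    rw [ha, hb]
    exact nd_conj g _ _ x y
  have hfin : ∀ hD : wl d t'.D = g * wl d t.D * g⁻¹, t'.kind = t.kind →
      (t.kind = 2 → wl d t'.L0 = g * wl d t.L0 * g⁻¹) →
      (t.kind = 3 → wl d t'.L0 = g * wl d t.L0 * g⁻¹ ∧ wl d t'.a0 = g * wl d t.a0 * g⁻¹ ∧
        wl d t'.R0 = g * wl d t.R0 * g⁻¹ ∧ wl d t'.b0 = g * wl d t.b0 * g⁻¹ ∧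
        ((t'.l1 ++ t'.l2).map fun y => (abG (wl d y) : Abelianization (BB d))).Perm
          ((t.l1 ++ t.l2).map fun y => abG (wl d y))) → SameD d t t' := by
    intro hD h1 h2 h3
    unfold SameD
    exact Or.inr ⟨hk, h1, g, ha, hb, hD, h2, h3⟩
  -- no pair is a kind 1 element
  have hno : ∀ x y : BB d, wl d (t'.Y P) = (ops P (wl d t'.a) (wl d t'.b)).nd x y → t'.kind ≠ 1 := by
    intro x y h1 h2
    rw [wl_Y1 h2] at h1
    exact NrmD_1 h' h2 x y h1
  rcases NrmD_kind h with h0 | h1 | h2 | h3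
  · exact absurd h0 hk
  · -- kind 1
    rw [wl_Y1 h1] at hs
    have hn := NrmD_1 h h1
    generalize hDD : wl d t.D = D at hs hn
    cases hs with
    | win N N' D' Wi hw1 hw2 => exact absurd rfl (hn _ _)
    | refl =>
      have hk1 : t'.kind = 1 := by
        have hcon : ∀ x y, wl d (t'.Y P) ≠ (ops P (wl d t'.a) (wl d t'.b)).nd x y := by
          intro x y hxy
          rw [hY] at hxy
          apply hn (g⁻¹ * x * g⁻¹⁻¹) (g⁻¹ * y * g⁻¹⁻¹)
          have h5 := hpair (g⁻¹ * x * g⁻¹⁻¹) (g⁻¹ * y * g⁻¹⁻¹)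
          rw [conj_conj_inv, conj_conj_inv, ← hxy] at h5
          exact (mul_left_cancel (mul_right_cancel h5)).symm
        rcases NrmD_kind h' with h0' | h1' | h2' | h3'
        · exact absurd h0' hk'
        · exact h1'
        · exact absurd (wl_Y2 h2') (hcon _ _)
        · exact absurd (wl_Y3 h3') (hcon _ _)
      rw [wl_Y1 hk1] at hY
      exact hfin (by rw [hDD]; exact hY) (by omega) (by omega) (by omega)
  · -- kind 2
    rw [wl_Y2 h2] at hs
    have hz := NrmD_2 h h2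
    have hY2 : Y'' = (ops P (wl d t.a) (wl d t.b)).nd (wl d t.L0) (wl d t.D) := by
      generalize hZ : (ops P (wl d t.a) (wl d t.b)).nd (wl d t.L0) (wl d t.D) = Z at hs
      cases hs with
      | refl => rfl
      | win N N' D' Wi hw1 hw2 =>
        exfalso
        have := (hA.inj hZ).1
        rw [this] at hz
        exact hz (isZip_of_hasWin hw1)
    rw [hY2, hpair] at hY
    rcases NrmD_kind h' with h0' | h1' | h2' | h3'
    · exact absurd h0' hk'
    · exact absurd h1' (hno _ _ hY)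
    · rw [wl_Y2 h2'] at hY
      obtain ⟨e1, e2⟩ := hA'.inj hY
      exact hfin e2 (by omega) (fun _ => e1) (by omega)
    · exfalso
      rw [wl_Y3 h3'] at hY
      obtain ⟨e1, -⟩ := hA'.inj hY
      have hw := isZip_of_hasWin (NrmD_3 h' h3')
      rw [e1, ha, hb] at hw
      exact hz (isZip_conj hw)
  · -- kind 3
    rw [wl_Y3 h3] at hs
    have hw := NrmD_3 h h3
    obtain ⟨N'', hN1, hN2⟩ : ∃ N'', Y'' = (ops P (wl d t.a) (wl d t.b)).nd N'' (wl d t.D) ∧
        (ops P (wl d t.a) (wl d t.b)).HasWin abG N'' (winD d t) := by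
      generalize hZ : (ops P (wl d t.a) (wl d t.b)).nd (wl d (t.N P)) (wl d t.D) = Z at hs
      cases hs with
      | refl => exact ⟨_, hZ.symm, hw⟩
      | win N N' D' Wi hw1 hw2 =>
        obtain ⟨e1, e2⟩ := hA.inj hZ
        rw [e1] at hw
        have := win_unique hA hw hw1
        rw [this]
        exact ⟨N', by rw [e2], hw2⟩
    rw [hN1, hpair] at hY
    have hwc := hasWin_conj g _ _ hN2
    rw [← ha, ← hb] at hwc
    rcases NrmD_kind h' with h0' | h1' | h2' | h3'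
    · exact absurd h0' hk'
    · exact absurd h1' (hno _ _ hY)
    · exfalso
      rw [wl_Y2 h2'] at hY
      obtain ⟨e1, -⟩ := hA'.inj hY
      rw [← e1] at hwc
      exact NrmD_2 h' h2' (isZip_of_hasWin hwc)
    · rw [wl_Y3 h3'] at hY
      obtain ⟨e1, e2⟩ := hA'.inj hY
      have hw' := NrmD_3 h' h3'
      rw [e1] at hw'
      have hu := win_unique hA' hw' hwc
      unfold winD at hu
      simp only [Win.mk.injEq] at hu
      obtain ⟨u1, u2, u3, u4, u5⟩ := hu
      exact hfin e2 (by omega) (by omega) (fun _ => ⟨u1, u2, u3, u4, Multiset.coe_eq_coe.1 u5⟩)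

theorem nd_conj_inv {a b Y : BB d} (hab : ¬ Commute a b) (g : BB d) :
    Nd (g * a * g⁻¹) (g * b * g⁻¹) (g * Y * g⁻¹) :=
  Nd_frame (fun h => hab ((commute_conj_iff g a b).1 h)) _

/-- **W6.** -/
theorem sameD_iff (hG : Geo d P) (hd : d.Prime) {adv : Finset ℕ} {t t' : Dt}
    (h : NrmD P T d adv t) (h' : NrmD P T d adv t') :
    SameD d t t' ↔ SameB P d (wl d (t.x P)) (wl d (t'.x P)) := by
  constructor
  · intro hs
    rcases hs with ⟨hk, hk', g, k, hg⟩ | ⟨hk, hkk, g, ha, hb, hD, h2, h3⟩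
    · rw [wl_x0 hk, wl_x0 hk', hg]
      exact SameB.iso _ _ _
    · have hk' : t'.kind ≠ 0 := by rw [hkk]; exact hk
      rw [wl_x hk, wl_x hk', ha, hb]
      obtain ⟨Y'', hs, hY⟩ : ∃ Y'', (ops P (wl d t.a) (wl d t.b)).Same abG (wl d (t.Y P)) Y'' ∧
          wl d (t'.Y P) = g * Y'' * g⁻¹ := by
        rcases NrmD_kind h with k0 | k1 | k2 | k3
        · exact absurd k0 hk
        · exact ⟨wl d (t.Y P), Ops.Same.refl _, by rw [wl_Y1 k1, wl_Y1 (hkk.trans k1), hD]⟩
        · refine ⟨wl d (t.Y P), Ops.Same.refl _, ?_⟩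
          rw [wl_Y2 k2, wl_Y2 (hkk.trans k2), hD, h2 k2, ha, hb, nd_conj]
        · obtain ⟨e1, e2, e3, e4, e5⟩ := h3 k3
          have k3' := hkk.trans k3
          refine ⟨(ops P (wl d t.a) (wl d t.b)).nd (g⁻¹ * wl d (t'.N P) * g⁻¹⁻¹) (wl d t.D), ?_, ?_⟩
          · rw [wl_Y3 k3]
            refine Ops.Same.win _ _ _ (winD d t) (NrmD_3 h k3) ?_
            have hw := hasWin_conj' ha hb (NrmD_3 h' k3')
            have : (⟨g⁻¹ * (winD d t').L0 * g⁻¹⁻¹, g⁻¹ * (winD d t').a0 * g⁻¹⁻¹,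
                g⁻¹ * (winD d t').R0 * g⁻¹⁻¹, g⁻¹ * (winD d t').b0 * g⁻¹⁻¹, (winD d t').S⟩ :
                Win (BB d) (Abelianization (BB d))) = winD d t := by
              unfold winD
              dsimp only
              rw [e1, e2, e3, e4, conj_inv_conj, conj_inv_conj, conj_inv_conj, conj_inv_conj,
                Multiset.coe_eq_coe.2 e5]
            rw [this] at hw
            exact hw
          · rw [wl_Y3 k3', nd_conj, conj_conj_inv, hD, ha, hb]
      rw [hY, ← conj_Wt]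
      exact SameB.cfg _ _ _ _ g hs
  · intro hs
    generalize hx : wl d (t.x P) = x at hs
    generalize hx' : wl d (t'.x P) = x' at hs
    cases hs with
    | iso x g k =>
      by_cases hk : t.kind = 0
      · rw [wl_x0 hk] at hx
        by_cases hk' : t'.kind = 0
        · rw [wl_x0 hk'] at hx'
          exact Or.inl ⟨hk, hk', g, k, by rw [hx', hx]⟩
        · exfalso
          rw [wl_x hk'] at hx'
          apply (NrmD_0 h hk).2
          rw [hx]
          refine ⟨k, g⁻¹ * wl d t'.a * g⁻¹⁻¹, g⁻¹ * wl d t'.b * g⁻¹⁻¹, g⁻¹ * wl d (t'.Y P) * g⁻¹⁻¹,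
            nd_conj_inv (NrmD_frame h' hk') g⁻¹, ?_⟩
          rw [← conj_Wt, hx']
          group
      · rw [wl_x hk] at hx
        by_cases hk' : t'.kind = 0
        · exfalso
          rw [wl_x0 hk'] at hx'
          obtain ⟨h1, h2⟩ := NrmD_0 h' hk'
          apply h2
          exact isWt_of_eq hd h1 (Nd_frame (NrmD_frame h hk) _) (by rw [hx', ← hx])
        · rw [wl_x hk', ← hx] at hx'
          obtain ⟨-, e, e1, e2, e3⟩ := cfg_inj hG hd.two_le (NrmD_frame h hk) (NrmD_frame h' hk') hx'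
          exact sameD_core hG hd h h' hk hk' e1 e2 (Ops.Same.refl _) e3
    | cfg a b Y Y' g hs =>
      by_cases hk : t.kind = 0
      · exfalso
        rw [wl_x0 hk] at hx
        obtain ⟨h1, h2⟩ := NrmD_0 h hk
        apply h2
        have hN : Nd a b Y := by
          by_contra hN
          rw [hx, Pool.Agent.helper24.PV.Wt_of_not_Nd P hN] at h1
          exact h1 rfl
        exact ⟨1, a, b, Y, hN, by rw [pow_one, hx]⟩
      · rw [wl_x hk] at hx
        have hfr := NrmD_frame h hk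
        obtain ⟨-, g1, e1, e2, e3⟩ := hG.inj (wl d t.a) (wl d t.b) (wl d (t.Y P)) a b Y 1 1
          (Nd_frame hfr _) (G1_not_dvd_one hd.two_le) (by rw [hx]; simp)
        have hab : ¬ Commute a b := by
          rw [e1, e2, commute_conj_iff]
          exact hfr
        by_cases hk' : t'.kind = 0
        · exfalso
          rw [wl_x0 hk'] at hx'
          obtain ⟨h1, h2⟩ := NrmD_0 h' hk'
          apply h2
          exact isWt_of_eq (k := 1) hd h1 (Nd_frame hab Y') (by rw [hx', pow_one])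
        · rw [wl_x hk'] at hx'
          obtain ⟨-, g2, f1, f2, f3⟩ := cfg_inj (k := 1) hG hd.two_le hab (NrmD_frame h' hk')
            (by rw [hx', pow_one])
          have hs1 := same_conj g1⁻¹ a b hs
          rw [e1, e2, e3, conj_inv_conj, conj_inv_conj, conj_inv_conj] at hs1
          refine sameD_core hG hd h h' hk hk' (g := g2 * g1) ?_ ?_ hs1 ?_
          · rw [f1, e1]; group
          · rw [f2, e2]; group
          · rw [f3]; group

end Pool.Agent.helper47.PV
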