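import Pool.Agent.helper47.PV.Dec0
import Pool.Agent.helper50.BW.M18
import Pool.Agent.helper50.BW.D14
/-! PV project (MP_c0bc55_al), DEC0: the word problem of the free Burnside group of infinite rank and
sufficiently large odd exponent is primitive recursive. -/
namespace Pool.Agent.helper47.PV
open Pool.Agent.helper50.BW

theorem triv_primrec : ∃ d₀ : ℕ, ∀ d ≥ d₀, Odd d → PrimrecPred (fun w : List (ℕ × Bool) => Triv d w) := by
  obtain ⟨d₀, h⟩ := dec_statement main_statement
  exact ⟨d₀, fun d hd ho => triv_prim (h d hd ho)⟩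

theorem triv_dec : ∃ d₀ : ℕ, ∀ d ≥ d₀, Odd d → ComputablePred (fun w : List (ℕ × Bool) => Triv d w) := by
  obtain ⟨d₀, h⟩ := dec_statement main_statement
  exact ⟨d₀, fun d hd ho => triv_dec' (h d hd ho)⟩

end Pool.Agent.helper47.PV
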