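import Mathlib
/-! PV project (MP_c0bc55_al), computability toolkit, part 2: words. -/
set_option linter.unusedSectionVars false
namespace Pool.Agent.helper47.PV
open Primrec

section generic
variable {α : Type*} [Primcodable α]

theorem prim_invRev : Primrec (FreeGroup.invRev : List (α × Bool) → List (α × Bool)) := by
  unfold FreeGroup.invRev
  exact list_reverse.comp (list_map Primrec.id
    (Primrec.pair (fst.comp snd) (Primrec.not.comp (snd.comp snd))))

/-- powers of words -/
def npw (w : List (α × Bool)) (k : ℕ) : List (α × Bool) := (List.replicate k w).flatten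

theorem mk_npw (w : List (α × Bool)) (k : ℕ) : FreeGroup.mk (npw w k) = FreeGroup.mk w ^ k := by
  rw [FreeGroup.pow_mk]
  rfl

theorem prim_npw : Primrec₂ (npw : List (α × Bool) → ℕ → List (α × Bool)) := by
  refine (nat_rec (f := fun _ : List (α × Bool) => ([] : List (α × Bool)))
    (g := fun (w : List (α × Bool)) (x : ℕ × List (α × Bool)) => w ++ x.2) (const [])
    (list_append.comp fst (snd.comp snd))).of_eq ?_
  intro w k
  induction k with
  | zero => rfl
  | succ k ih =>
    unfold npw at ih ⊢
    rw [List.replicate_succ, List.flatten_cons, ← ih]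

/-- conjugate of a word -/
def wconj (g w : List (α × Bool)) : List (α × Bool) := g ++ w ++ FreeGroup.invRev g

theorem mk_wconj (g w : List (α × Bool)) :
    FreeGroup.mk (wconj g w) = FreeGroup.mk g * FreeGroup.mk w * (FreeGroup.mk g)⁻¹ := by
  simp [wconj, FreeGroup.mul_mk, FreeGroup.inv_mk]

theorem prim_wconj : Primrec₂ (wconj : List (α × Bool) → List (α × Bool) → List (α × Bool)) :=
  list_append.comp (list_append.comp fst snd) (prim_invRev.comp fst)

/-- commutator x y x⁻¹ y⁻¹ of words -/
def wcomm (x y : List (α × Bool)) : List (α × Bool) :=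
  x ++ y ++ FreeGroup.invRev x ++ FreeGroup.invRev y

theorem mk_wcomm (x y : List (α × Bool)) : FreeGroup.mk (wcomm x y) =
    FreeGroup.mk x * FreeGroup.mk y * (FreeGroup.mk x)⁻¹ * (FreeGroup.mk y)⁻¹ := by
  simp [wcomm, FreeGroup.mul_mk, FreeGroup.inv_mk]

theorem prim_wcomm : Primrec₂ (wcomm : List (α × Bool) → List (α × Bool) → List (α × Bool)) :=
  list_append.comp (list_append.comp (list_append.comp fst snd) (prim_invRev.comp fst))
    (prim_invRev.comp snd)

theorem prim_reduce [DecidableEq α] :
    Primrec (FreeGroup.reduce : List (α × Bool) → List (α × Bool)) := by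
  have h : Primrec fun w : List (α × Bool) => w.foldr
      (fun a L => List.casesOn L [a] fun b L' => if a.1 = b.1 ∧ a.2 = !b.2 then L' else a :: b :: L')
      ([] : List (α × Bool)) := by
    refine list_foldr (h := fun (_ : List (α × Bool)) (x : (α × Bool) × List (α × Bool)) =>
      (List.casesOn x.2 [x.1] fun b L' => if x.1.1 = b.1 ∧ x.1.2 = !b.2 then L' else x.1 :: b :: L' :
        List (α × Bool))) Primrec.id (const []) ?_
    refine list_casesOn (h := fun (x : List (α × Bool) × ((α × Bool) × List (α × Bool)))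
      (y : (α × Bool) × List (α × Bool)) => if x.2.1.1 = y.1.1 ∧ x.2.1.2 = !y.1.2 then y.2 else
        x.2.1 :: y.1 :: y.2) (snd.comp snd) (list_cons.comp (fst.comp snd) (const [])) ?_
    refine Primrec.ite ?_ (snd.comp snd) (list_cons.comp (fst.comp (snd.comp fst))
      (list_cons.comp (fst.comp snd) (snd.comp snd)))
    exact PrimrecPred.and (Primrec.eq.comp (fst.comp (fst.comp (snd.comp fst))) (fst.comp (fst.comp snd)))
      (Primrec.eq.comp (snd.comp (fst.comp (snd.comp fst))) (Primrec.not.comp (snd.comp (fst.comp snd))))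
  refine h.of_eq fun w => ?_
  induction w with
  | nil => rfl
  | cons a w ih =>
    rw [List.foldr_cons, ih, FreeGroup.reduce.cons]

/-- equality of words in the free group -/
theorem prim_mkEq : PrimrecRel fun u v : List (α × Bool) => FreeGroup.mk u = FreeGroup.mk v := by
  classical
  refine (Primrec.eq.comp (prim_reduce.comp fst) (prim_reduce.comp snd)).of_eq ?_
  rintro ⟨u, v⟩
  exact ⟨fun h => FreeGroup.reduce.exact h, fun h => FreeGroup.reduce.sound h⟩

/-- all lists of length k with members in A -/
def listsOf (A : List α) (k : ℕ) : List (List α) :=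
  Nat.rec [[]] (fun _ L => L.flatMap fun l => A.map fun a => a :: l) k

theorem mem_listsOf {A : List α} {k : ℕ} {l : List α} :
    l ∈ listsOf A k ↔ l.length = k ∧ ∀ a ∈ l, a ∈ A := by
  induction k generalizing l with
  | zero =>
    show l ∈ [[]] ↔ _
    rw [List.mem_singleton]
    constructor
    · rintro rfl; simp
    · rintro ⟨h, -⟩; exact List.length_eq_zero_iff.1 h
  | succ k ih =>
    show l ∈ List.flatMap (fun l => A.map fun a => a :: l) (listsOf A k) ↔ _
    rw [List.mem_flatMap]
    constructor
    · rintro ⟨l', h1, h2⟩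
      obtain ⟨a, ha, rfl⟩ := List.mem_map.1 h2
      obtain ⟨h3, h4⟩ := ih.1 h1
      refine ⟨by simp [h3], ?_⟩
      intro b hb
      rcases List.mem_cons.1 hb with rfl | hb
      · exact ha
      · exact h4 b hb
    · rintro ⟨h1, h2⟩
      cases l with
      | nil => simp at h1
      | cons a l =>
        refine ⟨l, ih.2 ⟨by simpa using h1, fun b hb => h2 b (List.mem_cons_of_mem _ hb)⟩, ?_⟩
        exact List.mem_map.2 ⟨a, h2 a List.mem_cons_self, rfl⟩

theorem prim_listsOf : Primrec₂ (listsOf : List α → ℕ → List (List α)) := by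
  unfold listsOf
  refine nat_rec (f := fun _ : List α => ([[]] : List (List α)))
    (g := fun (A : List α) (x : ℕ × List (List α)) => x.2.flatMap fun l => A.map fun a => a :: l)
    (const [[]]) ?_
  refine list_flatMap (snd.comp snd) ?_
  refine list_map (fst.comp fst) ?_
  exact list_cons.comp snd (snd.comp fst)

end generic

/-! ### words over ℕ -/

/-- words over the letters x₀, x₁, … -/
abbrev Wd := List (ℕ × Bool)

/-- all letters of w are < n -/
def LtN (n : ℕ) (w : Wd) : Prop := ∀ a ∈ w, a.1 < n

instance (n : ℕ) (w : Wd) : Decidable (LtN n w) := by unfold LtN; infer_instance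

theorem prim_LtN : PrimrecRel fun (n : ℕ) (w : Wd) => LtN n w := by
  have h : PrimrecRel fun (a : ℕ × Bool) (n : ℕ) => a.1 < n := Primrec.nat_lt.comp (fst.comp fst) snd
  exact (h.forall_mem_list).comp snd fst

theorem LtN.append {n : ℕ} {u v : Wd} (hu : LtN n u) (hv : LtN n v) : LtN n (u ++ v) := by
  intro a ha
  rcases List.mem_append.1 ha with h | h
  · exact hu a h
  · exact hv a h

theorem LtN.invRev {n : ℕ} {u : Wd} (hu : LtN n u) : LtN n (FreeGroup.invRev u) := by
  intro a ha
  unfold FreeGroup.invRev at ha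
  rw [List.mem_reverse, List.mem_map] at ha
  obtain ⟨b, hb, rfl⟩ := ha
  exact hu b hb

theorem LtN.npw {n : ℕ} {u : Wd} (hu : LtN n u) (k : ℕ) : LtN n (npw u k) := by
  intro a ha
  unfold PV.npw at ha
  rw [List.mem_flatten] at ha
  obtain ⟨l, hl, ha⟩ := ha
  rw [List.mem_replicate] at hl
  exact hu a (hl.2 ▸ ha)

theorem LtN.wconj {n : ℕ} {g u : Wd} (hg : LtN n g) (hu : LtN n u) : LtN n (wconj g u) :=
  (hg.append hu).append hg.invRev

theorem LtN.wcomm {n : ℕ} {g u : Wd} (hg : LtN n g) (hu : LtN n u) : LtN n (wcomm g u) :=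
  ((hg.append hu).append hg.invRev).append hu.invRev

theorem LtN.nil (n : ℕ) : LtN n [] := by intro a ha; simp at ha

theorem LtN.mono {n m : ℕ} (h : n ≤ m) {u : Wd} (hu : LtN n u) : LtN m u :=
  fun a ha => lt_of_lt_of_le (hu a ha) h

/-- every word has bounded letters -/
theorem exists_LtN (w : Wd) : ∃ n, LtN n w := by
  induction w with
  | nil => exact ⟨0, LtN.nil 0⟩
  | cons a w ih =>
    obtain ⟨n, hn⟩ := ih
    refine ⟨max n (a.1 + 1), ?_⟩
    intro b hb
    rcases List.mem_cons.1 hb with rfl | hb
    · exact lt_of_lt_of_le (Nat.lt_succ_self _) (le_max_right _ _)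
    · exact lt_of_lt_of_le (hn b hb) (le_max_left _ _)

/-- the letters with index < n -/
def lettersN (n : ℕ) : Wd := (List.range n).flatMap fun i => [(i, true), (i, false)]

theorem mem_lettersN {n : ℕ} {a : ℕ × Bool} : a ∈ lettersN n ↔ a.1 < n := by
  obtain ⟨i, b⟩ := a
  unfold lettersN
  rw [List.mem_flatMap]
  constructor
  · rintro ⟨j, hj, h⟩
    rw [List.mem_range] at hj
    simp only [List.mem_cons, Prod.mk.injEq, List.not_mem_nil, or_false] at h
    rcases h with ⟨rfl, -⟩ | ⟨rfl, -⟩ <;> exact hj
  · intro h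
    refine ⟨i, List.mem_range.2 h, ?_⟩
    cases b <;> simp

theorem prim_lettersN : Primrec lettersN := by
  unfold lettersN
  refine list_flatMap list_range ?_
  exact list_cons.comp (Primrec.pair snd (const true))
    (list_cons.comp (Primrec.pair snd (const false)) (const []))

/-- all words of length ≤ l with letters < n -/
def wordsLE (n l : ℕ) : List Wd := (List.range (l + 1)).flatMap fun k => listsOf (lettersN n) k

theorem mem_wordsLE {n l : ℕ} {w : Wd} : w ∈ wordsLE n l ↔ w.length ≤ l ∧ LtN n w := by
  unfold wordsLE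
  rw [List.mem_flatMap]
  constructor
  · rintro ⟨k, hk, h⟩
    rw [List.mem_range] at hk
    obtain ⟨h1, h2⟩ := mem_listsOf.1 h
    exact ⟨by omega, fun a ha => mem_lettersN.1 (h2 a ha)⟩
  · rintro ⟨h1, h2⟩
    exact ⟨w.length, List.mem_range.2 (by omega),
      mem_listsOf.2 ⟨rfl, fun a ha => mem_lettersN.2 (h2 a ha)⟩⟩

theorem prim_wordsLE : Primrec₂ wordsLE := by
  unfold wordsLE
  refine list_flatMap (list_range.comp (succ.comp snd)) ?_
  exact prim_listsOf.comp (prim_lettersN.comp (fst.comp fst)) snd

/-- all lists of k words of length ≤ l with letters < n -/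
def tuplesLE (n l k : ℕ) : List (List Wd) := listsOf (wordsLE n l) k

theorem mem_tuplesLE {n l k : ℕ} {t : List Wd} :
    t ∈ tuplesLE n l k ↔ t.length = k ∧ ∀ w ∈ t, w.length ≤ l ∧ LtN n w := by
  unfold tuplesLE
  rw [mem_listsOf]
  simp only [mem_wordsLE]

theorem prim_tuplesLE : Primrec fun p : ℕ × ℕ × ℕ => tuplesLE p.1 p.2.1 p.2.2 :=
  prim_listsOf.comp (prim_wordsLE.comp fst (fst.comp snd)) (snd.comp snd)

/-! ### bounded search -/

variable {α β : Type*} [Primcodable α] [Primcodable β]

theorem primrecPred_exists_mem {R : α → β → Prop} (hR : PrimrecRel R) {f : α → List β} (hf : Primrec f) :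
    PrimrecPred fun a => ∃ b ∈ f a, R a b := by
  have h : PrimrecRel fun (b : β) (a : α) => R a b := hR.comp snd fst
  exact h.exists_mem_list.comp hf Primrec.id

theorem primrecPred_forall_mem {R : α → β → Prop} (hR : PrimrecRel R) {f : α → List β} (hf : Primrec f) :
    PrimrecPred fun a => ∀ b ∈ f a, R a b := by
  have h : PrimrecRel fun (b : β) (a : α) => R a b := hR.comp snd fst
  exact h.forall_mem_list.comp hf Primrec.id

/-- bounded search for a word -/
theorem primrecPred_exists_word {R : α → Wd → Prop} (hR : PrimrecRel R) {n l : α → ℕ}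
    (hn : Primrec n) (hl : Primrec l) :
    PrimrecPred fun a => ∃ w : Wd, w.length ≤ l a ∧ LtN (n a) w ∧ R a w := by
  refine (primrecPred_exists_mem hR (prim_wordsLE.comp hn hl)).of_eq fun a => ?_
  simp only [mem_wordsLE, and_assoc]

theorem primrecPred_forall_word {R : α → Wd → Prop} (hR : PrimrecRel R) {n l : α → ℕ}
    (hn : Primrec n) (hl : Primrec l) :
    PrimrecPred fun a => ∀ w : Wd, w.length ≤ l a → LtN (n a) w → R a w := by
  refine (primrecPred_forall_mem hR (prim_wordsLE.comp hn hl)).of_eq fun a => ?_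
  simp only [mem_wordsLE, and_imp]

/-- bounded search for a list of k words -/
theorem primrecPred_exists_tuple {R : α → List Wd → Prop} (hR : PrimrecRel R) {n l k : α → ℕ}
    (hn : Primrec n) (hl : Primrec l) (hk : Primrec k) :
    PrimrecPred fun a => ∃ t : List Wd, t.length = k a ∧ (∀ w ∈ t, w.length ≤ l a ∧ LtN (n a) w) ∧ R a t := by
  refine (primrecPred_exists_mem hR (prim_tuplesLE.comp (Primrec.pair hn (Primrec.pair hl hk)))).of_eq
    fun a => ?_
  simp only [mem_tuplesLE, and_assoc]

/-! ### exponent sums -/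

/-- number of occurrences -/
def occ (a : ℕ × Bool) (w : Wd) : ℕ := (w.filter fun b => b = a).length

theorem prim_occ : Primrec₂ occ := by
  have h : PrimrecRel fun (b a : ℕ × Bool) => b = a := Primrec.eq
  exact list_length.comp ((h.listFilter).comp snd fst)

theorem occ_append (a : ℕ × Bool) (u v : Wd) : occ a (u ++ v) = occ a u + occ a v := by
  simp [occ]

end Pool.Agent.helper47.PV
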