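import Pool.Agent.helper47.PV.ToolRE
import Pool.Agent.helper47.PV.ToolW
import Pool.Agent.helper4.PV.Defs
/-! PV project (MP_c0bc55_al), computability toolkit, part 4: words in the free Burnside group. -/
set_option linter.unusedSectionVars false
namespace Pool.Agent.helper47.PV
open Primrec
open Pool.Agent.helper50.BW (W Fd Triv)
open Pool.Agent.helper4.PV (BB wl Ltr Par cm mkr hh wprod Wt Nd Geo)

variable {d : ℕ}

theorem Ltr_iff {n : ℕ} {w : W} : Ltr n w ↔ LtN n w := Iff.rfl

/-- `wl d` as a homomorphism -/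
def qB (d : ℕ) : FreeGroup ℕ →* BB d := QuotientGroup.mk' (Fd d)

theorem qB_mk (w : W) : qB d (FreeGroup.mk w) = wl d w := rfl

theorem wl_nil : wl d [] = 1 := rfl

theorem wl_append (u v : W) : wl d (u ++ v) = wl d u * wl d v := by
  rw [← qB_mk, ← qB_mk, ← qB_mk, ← FreeGroup.mul_mk, map_mul]

theorem wl_invRev (u : W) : wl d (FreeGroup.invRev u) = (wl d u)⁻¹ := by
  rw [← qB_mk, ← qB_mk, ← FreeGroup.inv_mk, map_inv]

theorem wl_npw (u : W) (k : ℕ) : wl d (npw u k) = wl d u ^ k := by
  rw [← qB_mk, ← qB_mk, mk_npw, map_pow]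

theorem wl_wconj (g u : W) : wl d (wconj g u) = wl d g * wl d u * (wl d g)⁻¹ := by
  rw [wconj, wl_append, wl_append, wl_invRev]

theorem wl_wcomm (x y : W) : wl d (wcomm x y) = wl d x * wl d y * (wl d x)⁻¹ * (wl d y)⁻¹ := by
  rw [wcomm, wl_append, wl_append, wl_append, wl_invRev, wl_invRev]

theorem wl_surj (x : BB d) : ∃ w : W, wl d w = x := by
  obtain ⟨g, rfl⟩ := QuotientGroup.mk_surjective x
  exact ⟨g.toWord, by rw [wl, FreeGroup.mk_toWord]⟩

theorem wl_eq_one_iff (w : W) : wl d w = 1 ↔ Triv d w :=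
  QuotientGroup.eq_one_iff _

theorem wl_eq_iff (u v : W) : wl d u = wl d v ↔ Triv d (u ++ FreeGroup.invRev v) := by
  rw [← wl_eq_one_iff, wl_append, wl_invRev, mul_inv_eq_one]

/-- equality of words in the free Burnside group -/
theorem prim_wlEq (h : PrimrecPred fun w : W => Triv d w) :
    PrimrecRel fun u v : W => wl d u = wl d v := by
  refine (h.comp (list_append.comp fst (prim_invRev.comp snd))).of_eq ?_
  rintro ⟨u, v⟩
  exact (wl_eq_iff u v).symm

/-! ### the word of the test word -/

theorem map_cm {G H : Type} [Group G] [Group H] (f : G →* H) (a y : G) : f (cm a y) = cm (f a) (f y) := by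
  simp [cm]

theorem map_mk {G H : Type} [Group G] [Group H] (f : G →* H) (P : Par) (a y z : G) :
    f (mkr P a y z) = mkr P (f a) (f y) (f z) := by
  simp [mkr, map_cm, map_pow]

theorem map_hh {G H : Type} [Group G] [Group H] (f : G →* H) (a y z c : G) (t : Fin 11) :
    f (hh a y z c t) = hh (f a) (f y) (f z) (f c) t := by
  fin_cases t <;> simp [hh]

theorem map_wprod {G H : Type} [Group G] [Group H] (f : G →* H) (e : Fin 11 → ℕ) (c : G) (h : Fin 11 → G) :
    f (wprod e c h) = wprod e (f c) (fun t => f (h t)) := by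
  unfold wprod
  rw [map_list_prod]
  congr 1
  rw [List.map_ofFn]
  congr 1
  funext t
  simp

theorem map_Wt {G H : Type} [Group G] [Group H] (f : G →* H) (P : Par) (a y z : G) :
    f (Wt P a y z) = Wt P (f a) (f y) (f z) := by
  unfold Wt
  rw [map_wprod, map_mk]
  congr 1
  funext t
  rw [map_hh, map_mk]

/-- conjugation of a test word -/
theorem conj_Wt {G : Type} [Group G] (P : Par) (g a y z : G) :
    g * Wt P a y z * g⁻¹ = Wt P (g * a * g⁻¹) (g * y * g⁻¹) (g * z * g⁻¹) := by
  have := map_Wt (MulAut.conj g).toMonoidHom P a y z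
  simpa using this

def wcm (a y : W) : W := wcomm a (wconj y a)

theorem wl_wcm (a y : W) : wl d (wcm a y) = cm (wl d a) (wl d y) := by
  rw [wcm, wl_wcomm, wl_wconj]; rfl

theorem fg_wcm (a y : W) : FreeGroup.mk (wcm a y) = cm (FreeGroup.mk a) (FreeGroup.mk y) := by
  rw [wcm, mk_wcomm, mk_wconj]; rfl

theorem prim_wcm : Primrec₂ wcm := prim_wcomm.comp fst (prim_wconj.comp snd fst)

def wmk (P : Par) (a y z : W) : W :=
  npw (wcm a y) (P.n 0) ++ npw (wcm (npw a P.N) y) (P.n 1) ++ npw (wcm a z) (P.n 2) ++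
    npw (wcm (npw a P.N) z) (P.n 3)

theorem wl_wmk (P : Par) (a y z : W) : wl d (wmk P a y z) = mkr P (wl d a) (wl d y) (wl d z) := by
  simp only [wmk, wl_append, wl_npw, wl_wcm]; rfl

theorem fg_append (u v : W) : FreeGroup.mk (u ++ v) = FreeGroup.mk u * FreeGroup.mk v :=
  FreeGroup.mul_mk.symm

theorem fg_wmk (P : Par) (a y z : W) :
    FreeGroup.mk (wmk P a y z) = mkr P (FreeGroup.mk a) (FreeGroup.mk y) (FreeGroup.mk z) := by
  simp only [wmk, fg_append, mk_npw, fg_wcm]; rfl

theorem prim_wmk (P : Par) : Primrec fun x : W × W × W => wmk P x.1 x.2.1 x.2.2 := by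
  unfold wmk
  have h1 : ∀ {f g : W × W × W → W} (k : ℕ), Primrec f → Primrec g → Primrec fun x => npw (wcm (f x) (g x)) k :=
    fun k hf hg => prim_npw.comp (prim_wcm.comp hf hg) (const k)
  have hN : Primrec fun x : W × W × W => npw x.1 P.N := prim_npw.comp fst (const P.N)
  exact list_append.comp (list_append.comp (list_append.comp (h1 _ fst (fst.comp snd))
    (h1 _ hN (fst.comp snd))) (h1 _ fst (snd.comp snd))) (h1 _ hN (snd.comp snd))

/-- the connectors as words -/
def whh (a y z c : W) : Fin 11 → W :=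
  ![a, a, wconj y a, a, wconj y (wconj c a), a, wconj z a, a, wconj z (wconj c a), a,
    FreeGroup.invRev (npw a 10)]

theorem wl_whh (a y z c : W) (t : Fin 11) :
    wl d (whh a y z c t) = hh (wl d a) (wl d y) (wl d z) (wl d c) t := by
  fin_cases t <;> simp [whh, hh, wl_wconj, wl_invRev, wl_npw]

theorem fg_whh (a y z c : W) (t : Fin 11) : FreeGroup.mk (whh a y z c t) =
    hh (FreeGroup.mk a) (FreeGroup.mk y) (FreeGroup.mk z) (FreeGroup.mk c) t := by
  fin_cases t <;> simp [whh, hh, mk_wconj, mk_npw, ← FreeGroup.inv_mk]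

theorem prim_whh (t : Fin 11) :
    Primrec fun x : W × W × W × W => whh x.1 x.2.1 x.2.2.1 x.2.2.2 t := by
  have ha : Primrec fun x : W × W × W × W => x.1 := fst
  have hy : Primrec fun x : W × W × W × W => x.2.1 := fst.comp snd
  have hz : Primrec fun x : W × W × W × W => x.2.2.1 := fst.comp (snd.comp snd)
  have hc : Primrec fun x : W × W × W × W => x.2.2.2 := snd.comp (snd.comp snd)
  fin_cases t
  · exact ha
  · exact ha
  · exact prim_wconj.comp hy ha
  · exact ha
  · exact prim_wconj.comp hy (prim_wconj.comp hc ha)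
  · exact ha
  · exact prim_wconj.comp hz ha
  · exact ha
  · exact prim_wconj.comp hz (prim_wconj.comp hc ha)
  · exact ha
  · exact prim_invRev.comp (prim_npw.comp ha (const 10))

/-- the test word as a word -/
def wWt (P : Par) (a y z : W) : W :=
  (List.ofFn fun t => npw (wmk P a y z) (P.e t) ++ whh a y z (wmk P a y z) t).flatten

theorem wl_flatten (l : List W) : wl d l.flatten = (l.map (wl d)).prod := by
  induction l with
  | nil => rfl
  | cons w l ih => rw [List.flatten_cons, wl_append, ih, List.map_cons, List.prod_cons]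

theorem fg_flatten (l : List W) : FreeGroup.mk l.flatten = (l.map FreeGroup.mk).prod := by
  induction l with
  | nil => rfl
  | cons w l ih => rw [List.flatten_cons, fg_append, ih, List.map_cons, List.prod_cons]

theorem wl_wWt (P : Par) (a y z : W) : wl d (wWt P a y z) = Wt P (wl d a) (wl d y) (wl d z) := by
  unfold wWt Wt wprod
  rw [wl_flatten, List.map_ofFn]
  congr 2
  funext t
  simp only [Function.comp_apply, wl_append, wl_npw, wl_whh, wl_wmk]

theorem fg_wWt (P : Par) (a y z : W) :
    FreeGroup.mk (wWt P a y z) = Wt P (FreeGroup.mk a) (FreeGroup.mk y) (FreeGroup.mk z) := by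
  unfold wWt Wt wprod
  rw [fg_flatten, List.map_ofFn]
  congr 2
  funext t
  simp only [Function.comp_apply, fg_append, mk_npw, fg_whh, fg_wmk]

theorem prim_wWt (P : Par) : Primrec fun x : W × W × W => wWt P x.1 x.2.1 x.2.2 := by
  unfold wWt
  refine list_flatten.comp (list_ofFn fun t => ?_)
  exact list_append.comp (prim_npw.comp (prim_wmk P) (const (P.e t)))
    ((prim_whh t).comp (Primrec.pair fst (Primrec.pair (fst.comp snd) (Primrec.pair (snd.comp snd) (prim_wmk P)))))

theorem LtN_wcm {n : ℕ} {a y : W} (ha : LtN n a) (hy : LtN n y) : LtN n (wcm a y) :=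
  ha.wcomm (hy.wconj ha)

theorem LtN_wmk {n : ℕ} (P : Par) {a y z : W} (ha : LtN n a) (hy : LtN n y) (hz : LtN n z) :
    LtN n (wmk P a y z) :=
  ((((LtN_wcm ha hy).npw _).append ((LtN_wcm (ha.npw _) hy).npw _)).append
    ((LtN_wcm ha hz).npw _)).append ((LtN_wcm (ha.npw _) hz).npw _)

theorem LtN_whh {n : ℕ} {a y z c : W} (ha : LtN n a) (hy : LtN n y) (hz : LtN n z) (hc : LtN n c)
    (t : Fin 11) : LtN n (whh a y z c t) := by
  fin_cases t
  · exact ha
  · exact ha
  · exact hy.wconj ha
  · exact ha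
  · exact hy.wconj (hc.wconj ha)
  · exact ha
  · exact hz.wconj ha
  · exact ha
  · exact hz.wconj (hc.wconj ha)
  · exact ha
  · exact (ha.npw 10).invRev

theorem LtN_wWt {n : ℕ} (P : Par) {a y z : W} (ha : LtN n a) (hy : LtN n y) (hz : LtN n z) :
    LtN n (wWt P a y z) := by
  intro b hb
  unfold wWt at hb
  rw [List.mem_flatten] at hb
  obtain ⟨l, hl, hb⟩ := hb
  rw [List.mem_ofFn] at hl
  obtain ⟨t, rfl⟩ := hl
  exact (((LtN_wmk P ha hy hz).npw _).append (LtN_whh ha hy hz (LtN_wmk P ha hy hz) t)) b hb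

/-! ### the commutator quotient -/

/-- all exponent sums of `w` vanish modulo d -/
def EZ (d : ℕ) (w : W) : Prop := ∀ a ∈ w, occ (a.1, true) w % d = occ (a.1, false) w % d

theorem occ_eq_zero {a : ℕ × Bool} {w : W} (h : ∀ b ∈ w, b.1 ≠ a.1) : occ a w = 0 := by
  unfold occ
  rw [List.length_eq_zero_iff, List.filter_eq_nil_iff]
  intro b hb
  simp only [decide_eq_true_eq]
  rintro rfl
  exact h b hb rfl

theorem EZ_iff {w : W} : EZ d w ↔ ∀ i, occ (i, true) w % d = occ (i, false) w % d := by
  constructor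
  · intro h i
    by_cases hi : ∃ b ∈ w, b.1 = i
    · obtain ⟨b, hb, rfl⟩ := hi
      exact h b hb
    · push Not at hi
      rw [occ_eq_zero (a := (i, true)) (fun b hb => hi b hb), occ_eq_zero (a := (i, false)) (fun b hb => hi b hb)]
  · intro h a _
    exact h a.1

theorem prim_EZ (d : ℕ) : PrimrecPred (EZ d) := by
  have h : PrimrecRel fun (w : W) (a : ℕ × Bool) => occ (a.1, true) w % d = occ (a.1, false) w % d := by
    refine Primrec.eq.comp (nat_mod.comp (prim_occ.comp (Primrec.pair (fst.comp snd) (const true)) fst) (const d))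
      (nat_mod.comp (prim_occ.comp (Primrec.pair (fst.comp snd) (const false)) fst) (const d))
  exact primrecPred_forall_mem h Primrec.id

/-- exponent of the letter i in ZMod d -/
def exq (d i : ℕ) : FreeGroup ℕ →* Multiplicative (ZMod d) :=
  FreeGroup.lift fun j => Multiplicative.ofAdd (if j = i then 1 else 0)

theorem exq_mk (i : ℕ) (w : W) : (exq d i (FreeGroup.mk w)).toAdd =
    ((occ (i, true) w : ℕ) : ZMod d) - ((occ (i, false) w : ℕ) : ZMod d) := by
  induction w with
  | nil =>
    have : FreeGroup.mk ([] : W) = 1 := rfl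
    rw [this, map_one]
    simp [occ]
  | cons a w ih =>
    have h2 : FreeGroup.mk (a :: w) = FreeGroup.mk [a] * FreeGroup.mk w := by
      rw [FreeGroup.mul_mk]; rfl
    have h3 : ∀ b, occ b (a :: w) = occ b [a] + occ b w := fun b => occ_append b [a] w
    rw [h2, map_mul, toAdd_mul, ih, h3, h3]
    have h4 : (exq d i (FreeGroup.mk [a])).toAdd =
        ((occ (i, true) [a] : ℕ) : ZMod d) - ((occ (i, false) [a] : ℕ) : ZMod d) := by
      obtain ⟨j, b⟩ := a
      rw [exq, FreeGroup.lift_mk]
      by_cases hj : j = i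
      · subst hj
        cases b <;> simp [occ]
      · cases b <;> simp [occ, hj]
    rw [h4]
    push_cast
    ring

theorem exq_Fd (hd : 0 < d) (i : ℕ) {g : FreeGroup ℕ} (hg : g ∈ Fd d) : exq d i g = 1 := by
  have h : Fd d ≤ (exq d i).ker := by
    unfold Fd
    rw [Subgroup.closure_le]
    rintro _ ⟨g, rfl⟩
    show exq d i (g ^ d) = 1
    rw [map_pow, ← ofAdd_toAdd (exq d i g), ← ofAdd_nsmul]
    simp
  exact h hg

/-- the exponent map on B -/
def exB (d : ℕ) (hd : 0 < d) (i : ℕ) : BB d →* Multiplicative (ZMod d) :=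
  QuotientGroup.lift (Fd d) (exq d i) fun _ hg => exq_Fd hd i hg

theorem exB_wl (hd : 0 < d) (i : ℕ) (w : W) : (exB d hd i (wl d w)).toAdd =
    ((occ (i, true) w : ℕ) : ZMod d) - ((occ (i, false) w : ℕ) : ZMod d) := exq_mk i w

/-- homomorphisms of words to commutative groups -/
theorem comm_mk {C : Type*} [CommGroup C] (f : FreeGroup ℕ →* C) {n : ℕ} {w : W} (hw : LtN n w) :
    f (FreeGroup.mk w) = ∏ i ∈ Finset.range n,
      f (FreeGroup.of i) ^ ((occ (i, true) w : ℤ) - (occ (i, false) w : ℤ)) := by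
  induction w with
  | nil =>
    have : FreeGroup.mk ([] : W) = 1 := rfl
    rw [this, map_one]
    simp [occ]
  | cons a w ih =>
    have h2 : FreeGroup.mk (a :: w) = FreeGroup.mk [a] * FreeGroup.mk w := by
      rw [FreeGroup.mul_mk]; rfl
    have h3 : ∀ b, occ b (a :: w) = occ b [a] + occ b w := fun b => occ_append b [a] w
    have hw' : LtN n w := fun b hb => hw b (List.mem_cons_of_mem _ hb)
    have ha : a.1 < n := hw a List.mem_cons_self
    rw [h2, map_mul, ih hw']
    have h5 : ∀ i, f (FreeGroup.of i) ^ ((occ (i, true) (a :: w) : ℤ) - (occ (i, false) (a :: w) : ℤ)) =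
        f (FreeGroup.of i) ^ ((occ (i, true) [a] : ℤ) - (occ (i, false) [a] : ℤ)) *
          f (FreeGroup.of i) ^ ((occ (i, true) w : ℤ) - (occ (i, false) w : ℤ)) := by
      intro i
      rw [← zpow_add, h3, h3]
      congr 1
      push_cast
      ring
    simp only [h5]
    rw [Finset.prod_mul_distrib]
    congr 1
    rw [Finset.prod_eq_single a.1]
    · obtain ⟨j, b⟩ := a
      cases b
      · have : FreeGroup.mk [(j, false)] = (FreeGroup.of j)⁻¹ := rfl
        rw [this, map_inv]
        simp [occ]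
      · have : FreeGroup.mk [(j, true)] = FreeGroup.of j := rfl
        rw [this]
        simp [occ]
    · intro i _ hi
      rw [occ_eq_zero (a := (i, true)) (w := [a]) (by simpa using Ne.symm hi),
        occ_eq_zero (a := (i, false)) (w := [a]) (by simpa using Ne.symm hi)]
      simp
    · intro h
      exact absurd (Finset.mem_range.2 ha) h

/-- membership in the commutator subgroup of B -/
theorem wl_mem_commutator (hd : 0 < d) (w : W) : wl d w ∈ commutator (BB d) ↔ EZ d w := by
  rw [EZ_iff]
  constructor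
  · intro h i
    have h1 : exB d hd i (wl d w) = 1 := by
      have h2 : commutator (BB d) ≤ (exB d hd i).ker := Abelianization.commutator_subset_ker _
      exact h2 h
    have h3 := exB_wl hd i w
    rw [h1, toAdd_one, eq_comm, sub_eq_zero] at h3
    exact (ZMod.natCast_eq_natCast_iff _ _ _).1 h3
  · intro h
    obtain ⟨n, hn⟩ := exists_LtN w
    let f : FreeGroup ℕ →* Abelianization (BB d) := Abelianization.of.comp (qB d)
    have h1 : f (FreeGroup.mk w) = 1 := by
      rw [comm_mk f hn]
      apply Finset.prod_eq_one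
      intro i _
      have h2 : (d : ℤ) ∣ (occ (i, true) w : ℤ) - (occ (i, false) w : ℤ) := by
        have h3 : (occ (i, false) w) ≡ (occ (i, true) w) [MOD d] := (h i).symm
        have := (Nat.modEq_iff_dvd).1 h3
        exact this
      obtain ⟨k, hk⟩ := h2
      rw [hk, zpow_mul, zpow_natCast, ← map_pow]
      have h4 : f (FreeGroup.of i ^ d) = 1 := by
        show Abelianization.of (qB d (FreeGroup.of i ^ d)) = 1
        have h5 : qB d (FreeGroup.of i ^ d) = 1 :=
          (QuotientGroup.eq_one_iff _).2 (Subgroup.subset_closure ⟨_, rfl⟩)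
        rw [h5, map_one]
      rw [h4, one_zpow]
    have h6 : wl d w ∈ (Abelianization.of (G := BB d)).ker := h1
    rwa [Abelianization.ker_of] at h6

/-- equality modulo commutators -/
theorem prim_abEq (hd : 0 < d) :
    PrimrecRel fun u v : W => Abelianization.of (wl d u) = Abelianization.of (wl d v) := by
  refine ((prim_EZ d).comp (list_append.comp fst (prim_invRev.comp snd))).of_eq ?_
  rintro ⟨u, v⟩
  rw [← wl_mem_commutator hd, ← Abelianization.ker_of, MonoidHom.mem_ker, wl_append, wl_invRev, map_mul, map_inv,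
    mul_inv_eq_one]

end Pool.Agent.helper47.PV
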