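import Pool.Agent.helper47.PV.ToolRE
import Pool.Agent.helper47.PV.ToolW
/-! PV project (MP_c0bc55_al), computability toolkit, part 3: verbal subgroups are r.e., transfer between
finite and infinite rank. -/
set_option linter.unusedSectionVars false
namespace Pool.Agent.helper47.PV
open Primrec

/-- values of the laws -/
def lawVals (L : Finset (FreeGroup ℕ)) (α : Type) : Set (FreeGroup α) :=
  {g | ∃ w ∈ L, ∃ f : FreeGroup ℕ →* FreeGroup α, f w = g}

/-- the verbal subgroup -/
def VV (L : Finset (FreeGroup ℕ)) (α : Type) : Subgroup (FreeGroup α) := Subgroup.closure (lawVals L α)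

theorem VV_map (L : Finset (FreeGroup ℕ)) {α β : Type} (φ : FreeGroup α →* FreeGroup β)
    {g : FreeGroup α} (hg : g ∈ VV L α) : φ g ∈ VV L β := by
  have h : VV L α ≤ (VV L β).comap φ := by
    unfold VV
    rw [Subgroup.closure_le]
    rintro _ ⟨w, hw, f, rfl⟩
    exact Subgroup.subset_closure ⟨w, hw, φ.comp f, rfl⟩
  exact h hg

instance VV_normal (L : Finset (FreeGroup ℕ)) (α : Type) : (VV L α).Normal := by
  refine ⟨fun g hg h => ?_⟩
  have := VV_map L (MulAut.conj h).toMonoidHom hg
  simpa using this

theorem VV_law (L : Finset (FreeGroup ℕ)) {α : Type} {w : FreeGroup ℕ} (hw : w ∈ L)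
    (f : FreeGroup ℕ →* FreeGroup α) : f w ∈ VV L α :=
  Subgroup.subset_closure ⟨w, hw, f, rfl⟩

/-! ### transfer -/

/-- embedding of words -/
def emb {n : ℕ} (l : List (Fin n × Bool)) : Wd := l.map fun p => ((p.1 : ℕ), p.2)

theorem mk_emb {n : ℕ} (l : List (Fin n × Bool)) :
    FreeGroup.mk (emb l) = FreeGroup.map (fun i : Fin n => (i : ℕ)) (FreeGroup.mk l) := by
  rw [FreeGroup.map.mk]
  rfl

theorem LtN_emb {n : ℕ} (l : List (Fin n × Bool)) : LtN n (emb l) := by
  intro a ha
  unfold emb at ha
  obtain ⟨b, -, rfl⟩ := List.mem_map.1 ha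
  exact b.1.2

theorem prim_emb {n : ℕ} : Primrec (emb : List (Fin n × Bool) → Wd) := by
  unfold emb
  exact list_map Primrec.id (Primrec.pair (fin_val.comp (fst.comp snd)) (snd.comp snd))

/-- retraction to finite rank -/
def ret (n : ℕ) : FreeGroup ℕ →* FreeGroup (Fin n) :=
  FreeGroup.lift fun i => if h : i < n then FreeGroup.of ⟨i, h⟩ else 1

theorem ret_emb {n : ℕ} (l : List (Fin n × Bool)) : ret n (FreeGroup.mk (emb l)) = FreeGroup.mk l := by
  rw [mk_emb]
  have h : (ret n).comp (FreeGroup.map (fun i : Fin n => (i : ℕ))) = MonoidHom.id _ := by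
    ext i
    simp [ret]
  exact DFunLike.congr_fun h (FreeGroup.mk l)

/-- the verbal subgroup of finite rank is the trace of that of infinite rank -/
theorem mem_VV_emb (L : Finset (FreeGroup ℕ)) {n : ℕ} (l : List (Fin n × Bool)) :
    FreeGroup.mk (emb l) ∈ VV L ℕ ↔ FreeGroup.mk l ∈ VV L (Fin n) := by
  constructor
  · intro h
    have := VV_map L (ret n) h
    rwa [ret_emb] at this
  · intro h
    rw [mk_emb]
    exact VV_map L _ h

/-- decidability of the word problem of rank n from decidability on words with letters < n -/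
theorem computable_fin_of_nat (L : Finset (FreeGroup ℕ)) (n : ℕ)
    (h : ∃ q : Wd → Prop, ComputablePred q ∧ ∀ w, LtN n w → (q w ↔ FreeGroup.mk w ∈ VV L ℕ)) :
    ComputablePred fun l : List (Fin n × Bool) => FreeGroup.mk l ∈ VV L (Fin n) := by
  obtain ⟨q, hq, h1⟩ := h
  refine (computablePred_comp hq (prim_emb (n := n)).to_comp).of_eq fun l => ?_
  rw [h1 _ (LtN_emb l), mem_VV_emb]

/-! ### substitutions -/

section subst
variable {α : Type} [Primcodable α] [DecidableEq α]

/-- substitution of words for letters -/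
def sbst (σ : List (List (α × Bool))) (w : Wd) : List (α × Bool) :=
  w.flatMap fun a => bif a.2 then σ.getD a.1 [] else FreeGroup.invRev (σ.getD a.1 [])

theorem prim_sbst : Primrec₂ (sbst : List (List (α × Bool)) → Wd → List (α × Bool)) := by
  unfold sbst
  refine list_flatMap snd ?_
  have h : Primrec fun x : (List (List (α × Bool)) × Wd) × (ℕ × Bool) => x.1.1.getD x.2.1 [] :=
    (list_getD []).comp (fst.comp fst) (fst.comp snd)
  exact Primrec.cond (snd.comp snd) h (prim_invRev.comp h)

theorem mk_sbst (σ : List (List (α × Bool))) (w : Wd) :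
    FreeGroup.mk (sbst σ w) = FreeGroup.lift (fun i => FreeGroup.mk (σ.getD i [])) (FreeGroup.mk w) := by
  induction w with
  | nil => simp [sbst]; rfl
  | cons a w ih =>
    have h1 : sbst σ (a :: w) = (bif a.2 then σ.getD a.1 [] else FreeGroup.invRev (σ.getD a.1 [])) ++ sbst σ w := by
      simp [sbst]
    have h2 : FreeGroup.mk (a :: w) = FreeGroup.mk [a] * FreeGroup.mk w := by
      rw [FreeGroup.mul_mk]; rfl
    rw [h1, ← FreeGroup.mul_mk, ih, h2, map_mul]
    congr 1
    obtain ⟨i, b⟩ := a
    cases b
    · simp only [cond_false, FreeGroup.lift_mk, List.map_cons, List.map_nil, List.prod_cons, List.prod_nil,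
        mul_one, FreeGroup.inv_mk]
    · simp only [cond_true, FreeGroup.lift_mk, List.map_cons, List.map_nil, List.prod_cons, List.prod_nil,
        mul_one]

theorem lift_congr_LtN {G : Type*} [Group G] {f g : ℕ → G} {n : ℕ} (h : ∀ i < n, f i = g i) {w : Wd}
    (hw : LtN n w) : FreeGroup.lift f (FreeGroup.mk w) = FreeGroup.lift g (FreeGroup.mk w) := by
  rw [FreeGroup.lift_mk, FreeGroup.lift_mk]
  congr 1
  apply List.map_congr_left
  intro a ha
  rw [h a.1 (hw a ha)]

/-- every homomorphism is a substitution on a given word -/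
theorem exists_sbst (f : FreeGroup ℕ →* FreeGroup α) (w : Wd) :
    ∃ σ : List (List (α × Bool)), FreeGroup.mk (sbst σ w) = f (FreeGroup.mk w) := by
  obtain ⟨n, hn⟩ := exists_LtN w
  refine ⟨(List.range n).map fun i => (f (FreeGroup.of i)).toWord, ?_⟩
  rw [mk_sbst]
  have h1 : f = FreeGroup.lift (fun i => f (FreeGroup.of i)) := by ext i; simp
  conv_rhs => rw [h1]
  apply lift_congr_LtN _ hn
  intro i hi
  rw [List.getD_eq_getElem?_getD, List.getElem?_map, List.getElem?_range hi]
  simp [FreeGroup.mk_toWord]

/-- the value of a certificate entry (sign, number of the law, substitution) -/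
def ent (Ls : List Wd) (e : Bool × ℕ × List (List (α × Bool))) : List (α × Bool) :=
  bif e.1 then sbst e.2.2 (Ls.getD e.2.1 []) else FreeGroup.invRev (sbst e.2.2 (Ls.getD e.2.1 []))

theorem prim_ent (Ls : List Wd) :
    Primrec (ent Ls : Bool × ℕ × List (List (α × Bool)) → List (α × Bool)) := by
  unfold ent
  have h : Primrec fun e : Bool × ℕ × List (List (α × Bool)) => sbst e.2.2 (Ls.getD e.2.1 []) :=
    prim_sbst.comp (snd.comp snd) ((list_getD []).comp (const Ls) (fst.comp snd))
  exact Primrec.cond fst h (prim_invRev.comp h)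

theorem mem_VV_iff_cert (L : Finset (FreeGroup ℕ)) (l : List (α × Bool)) :
    FreeGroup.mk l ∈ VV L α ↔ ∃ c : List (Bool × ℕ × List (List (α × Bool))),
      FreeGroup.mk l = FreeGroup.mk (c.flatMap (ent (L.toList.map FreeGroup.toWord))) := by
  set Ls := L.toList.map FreeGroup.toWord with hLs
  constructor
  · intro h
    have h0 : FreeGroup.mk l ∈ (Subgroup.closure (lawVals L α)).toSubmonoid := h
    rw [Subgroup.closure_toSubmonoid] at h0
    obtain ⟨ys, h1, h2⟩ := Submonoid.exists_list_of_mem_closure h0
    clear h0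
    rw [← h2]
    clear h2 h
    induction ys with
    | nil => exact ⟨[], rfl⟩
    | cons y ys ih =>
      obtain ⟨c, hc⟩ := ih fun z hz => h1 z (List.mem_cons_of_mem _ hz)
      have key : ∃ e : Bool × ℕ × List (List (α × Bool)), FreeGroup.mk (ent Ls e) = y := by
        have aux : ∀ y' : FreeGroup α, y' ∈ lawVals L α → ∃ (i : ℕ) (σ : List (List (α × Bool))),
            FreeGroup.mk (sbst σ (Ls.getD i [])) = y' := by
          rintro _ ⟨w, hw, f, rfl⟩
          obtain ⟨i, hi, h3⟩ := List.getElem_of_mem (Finset.mem_toList.2 hw)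
          obtain ⟨σ, hσ⟩ := exists_sbst f w.toWord
          refine ⟨i, σ, ?_⟩
          have h4 : Ls.getD i [] = w.toWord := by
            rw [hLs, List.getD_eq_getElem?_getD, List.getElem?_map, List.getElem?_eq_getElem hi, h3]
            rfl
          rw [h4, hσ, FreeGroup.mk_toWord]
        rcases h1 y List.mem_cons_self with hy | hy
        · obtain ⟨i, σ, h3⟩ := aux y hy
          exact ⟨(true, i, σ), h3⟩
        · obtain ⟨i, σ, h3⟩ := aux _ hy
          refine ⟨(false, i, σ), ?_⟩
          show FreeGroup.mk (FreeGroup.invRev (sbst σ (Ls.getD i []))) = y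
          rw [← FreeGroup.inv_mk, h3, inv_inv]
      obtain ⟨e, he⟩ := key
      refine ⟨e :: c, ?_⟩
      rw [List.prod_cons, List.flatMap_cons, ← FreeGroup.mul_mk, he, hc]
  · rintro ⟨c, hc⟩
    rw [hc]
    clear hc
    induction c with
    | nil => exact one_mem _
    | cons e c ih =>
      rw [List.flatMap_cons, ← FreeGroup.mul_mk]
      refine mul_mem ?_ ih
      have aux : ∀ (i : ℕ) (σ : List (List (α × Bool))), FreeGroup.mk (sbst σ (Ls.getD i [])) ∈ VV L α := by
        intro i σ
        rw [mk_sbst]
        by_cases hi : i < L.toList.length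
        · have h4 : Ls.getD i [] = (L.toList[i]).toWord := by
            rw [hLs, List.getD_eq_getElem?_getD, List.getElem?_map, List.getElem?_eq_getElem hi]
            rfl
          rw [h4, FreeGroup.mk_toWord]
          exact VV_law L (Finset.mem_toList.1 (List.getElem_mem hi)) _
        · have h4 : Ls.getD i [] = [] := by
            rw [hLs]
            exact List.getD_eq_default _ _ (by simpa using hi)
          rw [h4]
          exact one_mem _
      obtain ⟨b, i, σ⟩ := e
      cases b
      · show FreeGroup.mk (FreeGroup.invRev (sbst σ (Ls.getD i []))) ∈ VV L α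
        rw [← FreeGroup.inv_mk]
        exact inv_mem (aux i σ)
      · exact aux i σ

/-- verbal subgroups of finitely based varieties are r.e. -/
theorem re_VV (L : Finset (FreeGroup ℕ)) :
    REPred fun l : List (α × Bool) => FreeGroup.mk l ∈ VV L α := by
  have h : PrimrecRel fun (l : List (α × Bool)) (c : List (Bool × ℕ × List (List (α × Bool)))) =>
      FreeGroup.mk l = FreeGroup.mk (c.flatMap (ent (L.toList.map FreeGroup.toWord))) :=
    prim_mkEq.comp fst (list_flatMap snd ((prim_ent _).comp snd))
  exact (re_exists (R := fun (l : List (α × Bool)) (c : List (Bool × ℕ × List (List (α × Bool)))) =>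
      FreeGroup.mk l = FreeGroup.mk (c.flatMap (ent (L.toList.map FreeGroup.toWord))))
    (re_of_primrec h)).of_eq fun l => (mem_VV_iff_cert L l).symm

end subst

end Pool.Agent.helper47.PV
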