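import Pool.Agent.helper47.PV.Sim
/-! PV project (MP_c0bc55_al), DEC0 part 2: the word problem of the free Burnside group of infinite rank
is primitive recursive. -/
namespace Pool.Agent.helper47.PV
open Pool.Agent.helper50.BW
open Primrec

theorem prim_bits : Primrec Nat.bits := by
  have h : Primrec₂ (fun (_ : Unit) (n : ℕ) => Nat.bits n) := by
    refine nat_strong_rec _ (g := fun _ l => some (bif l.length == 0 then [] else
      l.length.bodd :: l.getD (l.length / 2) [])) ?_ ?_
    · refine option_some.comp (Primrec.cond (Primrec.beq.comp (list_length.comp snd) (const 0)) (const [])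
        (list_cons.comp (nat_bodd.comp (list_length.comp snd)) ((list_getD []).comp snd
          (nat_div.comp (list_length.comp snd) (const 2)))))
    · intro _ n
      rcases Nat.eq_zero_or_pos n with rfl | hn
      · simp
      · have h1 : (n == 0) = false := by simp; omega
        have h2 : n / 2 < n := Nat.div_lt_self hn (by omega)
        simp only [List.length_map, List.length_range, h1, cond_false, Option.some.injEq]
        rw [List.getD_eq_getElem?_getD, List.getElem?_map, List.getElem?_range h2]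
        simp only [Option.map_some, Option.getD_some]
        conv_rhs => rw [← Nat.bit_bodd_div2 n]
        rw [Nat.bits_append_bit _ _ (by
          intro h0
          rw [Nat.div2_val] at h0
          have : n = 1 := by omega
          subst this
          rfl), Nat.div2_val]
  exact (h.comp (const ()) Primrec.id)

def encL4 (w : W) : List Sy := ((encW w).map A4.sy).reverse

theorem encL4_eq (w : W) : encL4 w = (w.flatMap fun a => (bif a.2 then (2 : Sy) else 3) ::
    (Nat.bits (a.1 + 1)).reverse.tail.map fun b => bif b then (1 : Sy) else 0).reverse := by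
  unfold encL4 encW
  rw [List.map_flatMap]
  congr 2
  funext a
  unfold code dig
  rw [List.map_cons, List.map_map, ← List.tail_reverse]
  congr 1
  · cases a.2 <;> rfl
  · apply List.map_congr_left
    intro b _
    cases b <;> rfl

theorem prim_encL4 : Primrec encL4 := by
  refine Primrec.of_eq ?_ (fun w => (encL4_eq w).symm)
  refine list_reverse.comp (list_flatMap Primrec.id ?_)
  refine list_cons.comp (Primrec.cond (snd.comp snd) (const 2) (const 3)) ?_
  refine list_map (list_tail.comp (list_reverse.comp (prim_bits.comp (succ.comp (fst.comp snd))))) ?_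
  exact Primrec.cond snd (const 1) (const 0)

theorem rep_inp (w : W) : Rep [encL4 w] (inp (encW w)) := by
  intro r
  rcases r with _ | r
  · rfl
  · simp [inp]

theorem time_nat (C : ℝ) : ∃ K : ℕ, ∀ n t : ℕ, (t : ℝ) ≤ Real.exp (C * ((n : ℝ) + 1) ^ (1 / 8 : ℝ)) →
    t ≤ 3 ^ (K * (n + 1)) := by
  refine ⟨⌈|C|⌉₊, fun n t h => ?_⟩
  have h1 : ((n : ℝ) + 1) ^ (1 / 8 : ℝ) ≤ (n : ℝ) + 1 := by
    have h0 : (1 : ℝ) ≤ (n : ℝ) + 1 := by
      have : (0 : ℝ) ≤ n := Nat.cast_nonneg n
      linarith
    calc ((n : ℝ) + 1) ^ (1 / 8 : ℝ) ≤ ((n : ℝ) + 1) ^ (1 : ℝ) := Real.rpow_le_rpow_of_exponent_le h0 (by norm_num)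
      _ = (n : ℝ) + 1 := Real.rpow_one _
  have h2 : C * ((n : ℝ) + 1) ^ (1 / 8 : ℝ) ≤ (⌈|C|⌉₊ : ℝ) * ((n : ℝ) + 1) := by
    have h3 : (0 : ℝ) ≤ ((n : ℝ) + 1) ^ (1 / 8 : ℝ) := by positivity
    calc C * ((n : ℝ) + 1) ^ (1 / 8 : ℝ) ≤ |C| * ((n : ℝ) + 1) ^ (1 / 8 : ℝ) :=
          mul_le_mul_of_nonneg_right (le_abs_self C) h3
      _ ≤ (⌈|C|⌉₊ : ℝ) * ((n : ℝ) + 1) := mul_le_mul (Nat.le_ceil _) h1 h3 (Nat.cast_nonneg _)
  have h4 : Real.exp ((⌈|C|⌉₊ : ℝ) * ((n : ℝ) + 1)) ≤ (3 : ℝ) ^ (⌈|C|⌉₊ * (n + 1)) := by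
    have h5 : ((⌈|C|⌉₊ : ℝ) * ((n : ℝ) + 1)) = ((⌈|C|⌉₊ * (n + 1) : ℕ) : ℝ) * 1 := by push_cast; ring
    rw [h5, Real.exp_nat_mul]
    exact pow_le_pow_left₀ (Real.exp_pos _).le (by
      have := Real.exp_one_lt_d9
      linarith) _
  have h6 : (t : ℝ) ≤ (3 : ℝ) ^ (⌈|C|⌉₊ * (n + 1)) := h.trans ((Real.exp_le_exp.2 h2).trans h4)
  exact_mod_cast h6

theorem prim_pow3 (K : ℕ) : Primrec fun n : ℕ => 3 ^ (K * (n + 1)) := by
  have h : Primrec fun n : ℕ => 3 ^ n := by
    refine (nat_rec₁ (f := fun (_ : ℕ) (m : ℕ) => 3 * m) 1 (nat_mul.comp (const 3) snd)).of_eq ?_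
    intro n
    induction n with
    | zero => rfl
    | succ n ih => rw [pow_succ, ← ih, mul_comm]
  exact h.comp (nat_mul.comp (const K) succ)

/-- a sound and complete primitive recursive decision procedure -/
theorem triv_prim {d : ℕ} (h : DecStatement d) : PrimrecPred (Triv d) := by
  classical
  obtain ⟨P, C, hP⟩ := h
  obtain ⟨K, hK⟩ := time_nat C
  obtain ⟨f, hf, hf'⟩ := pg_prim P
  have hlen : Primrec fun w : W => (encW w).length :=
    (list_length.comp prim_encL4).of_eq fun w => by simp [encL4]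
  have hg : Primrec fun w : W => (f (3 ^ (K * ((encW w).length + 1)), [encL4 w])).map fun L => L.getD 1 [] := by
    refine option_map (hf.comp (Primrec.pair ((prim_pow3 K).comp hlen)
      (list_cons.comp prim_encL4 (const [])))) ?_
    exact (list_getD []).comp snd (const 1)
  have hp : PrimrecPred fun w : W => ¬ ((f (3 ^ (K * ((encW w).length + 1)), [encL4 w])).map
      fun L => L.getD 1 []) = some [] := (Primrec.eq.comp hg (const (some []))).not
  refine hp.of_eq fun w => ?_
  obtain ⟨σ', t, h1, h2, h3⟩ := hP w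
  obtain ⟨L', e, h4⟩ := hf' _ _ _ h1 (3 ^ (K * ((encW w).length + 1))) (hK _ _ h2) _ (rep_inp w)
  rw [e, ← h3, Option.map_some, Option.some.injEq, h4 1]

theorem triv_dec' {d : ℕ} (h : DecStatement d) : ComputablePred (Triv d) := (triv_prim h).computablePred

end Pool.Agent.helper47.PV
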