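import Pool.Agent.helper50.BW.DefsD
/-! PV project (MP_c0bc55_al), DEC0 part 1: stack programs with a time bound are primitive recursive. -/
namespace Pool.Agent.helper47.PV
open Pool.Agent.helper50.BW
open Primrec

/-- finite lists of registers -/
abbrev RL := List (List Sy)

/-- the list L represents the registers σ -/
def Rep (L : RL) (σ : St) : Prop := ∀ r, L.getD r [] = σ r

/-- write a register -/
def setR (r : ℕ) (L : RL) (x : List Sy) : RL :=
  (List.range (max L.length (r + 1))).map fun i => if i = r then x else L.getD i []

theorem rep_setR {L : RL} {σ : St} (h : Rep L σ) (r : ℕ) (x : List Sy) :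
    Rep (setR r L x) (Function.update σ r x) := by
  intro i
  unfold setR
  rw [List.getD_eq_getElem?_getD, List.getElem?_map]
  by_cases hi : i < max L.length (r + 1)
  · rw [List.getElem?_range hi]
    simp only [Option.map_some, Option.getD_some]
    by_cases hir : i = r
    · subst hir; simp
    · rw [if_neg hir, Function.update_of_ne hir]
      exact h i
  · rw [List.getElem?_eq_none (by simpa using hi)]
    have hir : i ≠ r := by
      rintro rfl
      exact hi (lt_of_lt_of_le (Nat.lt_succ_self _) (le_max_right _ _))
    rw [Function.update_of_ne hir, ← h i, List.getD_eq_default _ _ (by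
      have := le_max_left L.length (r + 1)
      omega)]
    rfl

theorem prim_setR (r : ℕ) : Primrec₂ (setR r) := by
  unfold setR
  refine list_map (list_range.comp (nat_max.comp (list_length.comp fst) (const (r + 1)))) ?_
  refine Primrec.ite (Primrec.eq.comp snd (const r)) (snd.comp fst) ?_
  exact (list_getD []).comp (fst.comp fst) snd

theorem prim_dispatch {α σ : Type*} [Primcodable α] [Primcodable σ] {h : α → Sy} (hh : Primrec h)
    {g : Sy → α → σ} (hg : ∀ b, Primrec (g b)) : Primrec fun x => g (h x) x := by
  refine (Primrec.ite (c := fun x => h x = 0) (Primrec.eq.comp hh (const 0)) (hg 0)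
    (Primrec.ite (c := fun x => h x = 1) (Primrec.eq.comp hh (const 1)) (hg 1)
    (Primrec.ite (c := fun x => h x = 2) (Primrec.eq.comp hh (const 2)) (hg 2) (hg 3)))).of_eq ?_
  intro x
  generalize h x = b
  fin_cases b <;> rfl

/-- one round of a loop; the flag is true if the loop has stopped -/
def stp (r : ℕ) (f : Sy → ℕ × RL → Option RL) (n : ℕ) (o : Option (RL × Bool)) : Option (RL × Bool) :=
  o.bind fun q => bif q.2 then some q else
    List.casesOn (q.1.getD r []) (some (q.1, true)) fun c l =>
      (f c (n, setR r q.1 l)).map fun L' => (L', false)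

theorem prim_stp (r : ℕ) {f : Sy → ℕ × RL → Option RL} (hf : ∀ c, Primrec (f c)) :
    Primrec₂ (stp r f) := by
  unfold stp
  refine option_bind snd ?_
  refine Primrec.cond (snd.comp snd) (option_some.comp snd) ?_
  refine list_casesOn (h := fun (x : (ℕ × Option (RL × Bool)) × (RL × Bool)) (y : Sy × List Sy) =>
      (f y.1 (x.1.1, setR r x.2.1 y.2)).map fun L' => (L', false))
    ((list_getD []).comp (fst.comp snd) (const r)) (option_some.comp (Primrec.pair (fst.comp snd) (const true))) ?_
  refine option_map ?_ (Primrec.pair snd (const false))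
  exact prim_dispatch (h := fun x : ((ℕ × Option (RL × Bool)) × (RL × Bool)) × (Sy × List Sy) => x.2.1)
    (fst.comp snd) (g := fun c x => f c (x.1.1.1, setR r x.1.2.1 x.2.2))
    (fun c => (hf c).comp (Primrec.pair (fst.comp (fst.comp fst))
      ((prim_setR r).comp (fst.comp (snd.comp fst)) (snd.comp snd))))

theorem stp_done (r : ℕ) (f : Sy → ℕ × RL → Option RL) (n : ℕ) (L : RL) (k : ℕ) :
    (stp r f n)^[k] (some (L, true)) = some (L, true) := by
  induction k with
  | zero => rfl
  | succ k ih => rw [Function.iterate_succ_apply]; exact ih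

/-- every stack program with a bound on the number of steps is primitive recursive -/
theorem pg_prim (P : Pg) : ∃ f : ℕ × RL → Option RL, Primrec f ∧
    ∀ σ t σ', Ex P σ t σ' → ∀ n, t ≤ n → ∀ L, Rep L σ → ∃ L', f (n, L) = some L' ∧ Rep L' σ' := by
  induction P with
  | skip =>
    refine ⟨fun p => some p.2, option_some.comp snd, ?_⟩
    intro σ t σ' h n hn L hL
    cases h
    exact ⟨L, rfl, hL⟩
  | push r c =>
    refine ⟨fun p => some (setR r p.2 (c :: p.2.getD r [])), option_some.comp ((prim_setR r).comp snd
      (list_cons.comp (const c) ((list_getD []).comp snd (const r)))), ?_⟩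
    intro σ t σ' h n hn L hL
    cases h
    refine ⟨_, rfl, ?_⟩
    have := hL r
    simp only [this]
    exact rep_setR hL r _
  | seq a b iha ihb =>
    obtain ⟨f, hf, hf'⟩ := iha
    obtain ⟨g, hg, hg'⟩ := ihb
    refine ⟨fun p => (f p).bind fun L => g (p.1, L), option_bind hf (hg.comp (Primrec.pair (fst.comp fst) snd)), ?_⟩
    intro σ t σ' h n hn L hL
    cases h with
    | seq h1 h2 =>
      obtain ⟨L1, e1, h3⟩ := hf' _ _ _ h1 n (by omega) L hL
      obtain ⟨L2, e2, h4⟩ := hg' _ _ _ h2 n (by omega) L1 h3
      exact ⟨L2, by simp [e1, e2], h4⟩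
  | case r a ih =>
    choose f hf hf' using ih
    refine ⟨fun p => List.casesOn (p.2.getD r []) (f none p) fun c l => f (some c) (p.1, setR r p.2 l), ?_, ?_⟩
    · refine list_casesOn (h := fun (p : ℕ × RL) (y : Sy × List Sy) => f (some y.1) (p.1, setR r p.2 y.2))
        ((list_getD []).comp snd (const r)) (hf none) ?_
      exact prim_dispatch (h := fun x : (ℕ × RL) × (Sy × List Sy) => x.2.1)
        (fst.comp snd) (g := fun c x => f (some c) (x.1.1, setR r x.1.2 x.2.2))
        (fun c => (hf (some c)).comp (Primrec.pair (fst.comp fst)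
          ((prim_setR r).comp (snd.comp fst) (snd.comp snd))))
    · intro σ t σ' h n hn L hL
      cases h with
      | case_nil h1 h2 =>
        obtain ⟨L', e, h3⟩ := hf' _ _ _ _ h2 n (by omega) L hL
        refine ⟨L', ?_, h3⟩
        simp only [hL r, h1, e]
      | case_cons h1 h2 =>
        rename_i c l t
        obtain ⟨L', e, h3⟩ := hf' _ _ _ _ h2 n (by omega) _ (rep_setR hL r l)
        refine ⟨L', ?_, h3⟩
        simp only [hL r, h1, e]
  | loop r a ih =>
    choose f hf hf' using ih
    have key : ∀ σ t σ', Ex (.loop r a) σ t σ' → ∀ n, t ≤ n → ∀ k, t ≤ k → ∀ L, Rep L σ →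
        ∃ L', (stp r f n)^[k] (some (L, false)) = some (L', true) ∧ Rep L' σ' := by
      intro σ t σ' h
      generalize hP : Pg.loop r a = P at h
      induction h with
      | skip => simp at hP
      | push => simp at hP
      | seq => simp at hP
      | case_nil => simp at hP
      | case_cons => simp at hP
      | loop_nil h1 =>
        obtain ⟨rfl, rfl⟩ : r = _ ∧ a = _ := by simpa using hP
        intro n hn k hk L hL
        obtain ⟨k, rfl⟩ : ∃ k', k = k' + 1 := ⟨k - 1, by omega⟩
        refine ⟨L, ?_, hL⟩
        rw [Function.iterate_succ_apply]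
        have : stp r f n (some (L, false)) = some (L, true) := by
          simp only [stp, Option.bind_some, cond_false, hL r, h1]
        rw [this, stp_done]
      | loop_cons h1 h2 h3 ih2 ih3 =>
        obtain ⟨rfl, rfl⟩ : r = _ ∧ a = _ := by simpa using hP
        intro n hn k hk L hL
        obtain ⟨k, rfl⟩ : ∃ k', k = k' + 1 := ⟨k - 1, by omega⟩
        obtain ⟨L1, e, h4⟩ := hf' _ _ _ _ h2 n (by omega) _ (rep_setR hL r _)
        obtain ⟨L2, e2, h5⟩ := ih3 rfl n (by omega) k (by omega) L1 h4
        refine ⟨L2, ?_, h5⟩
        rw [Function.iterate_succ_apply]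
        have : stp r f n (some (L, false)) = some (L1, false) := by
          simp only [stp, Option.bind_some, cond_false, hL r, h1, e, Option.map_some]
        rw [this, e2]
    refine ⟨fun p => ((stp r f p.1)^[p.1] (some (p.2, false))).bind fun q => bif q.2 then some q.1 else none, ?_, ?_⟩
    · refine option_bind ?_ (Primrec.cond (snd.comp snd) (option_some.comp (fst.comp snd)) (const none))
      refine nat_iterate (h := fun p : ℕ × RL => stp r f p.1) fst (option_some.comp (Primrec.pair snd (const false))) ?_
      exact (prim_stp r hf).comp (fst.comp fst) snd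
    · intro σ t σ' h n hn L hL
      obtain ⟨L', e, h1⟩ := key σ t σ' h n hn n hn L hL
      exact ⟨L', by simp [e], h1⟩

end Pool.Agent.helper47.PV
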