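import Mathlib
/-! PV project (MP_c0bc55_al), computability toolkit, part 1: closure properties of recursively
enumerable predicates. -/
namespace Pool.Agent.helper47.PV
open Primrec

variable {α β γ : Type*} [Primcodable α] [Primcodable β] [Primcodable γ]

/-- projections of computable relations are r.e. -/
theorem re_of_exists {q : α → ℕ → Prop} (hq : ComputablePred fun p : α × ℕ => q p.1 p.2) :
    REPred fun a => ∃ n, q a n := by
  classical
  have h : Partrec (fun a ↦ Nat.rfind fun n => Part.some (decide (q a n))) :=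
    Partrec.rfind hq.decide.partrec
  refine h.dom_re.of_eq fun a => ?_
  constructor
  · intro h1
    obtain ⟨n, hn⟩ := Part.dom_iff_mem.1 h1
    have := Nat.rfind_spec hn
    exact ⟨n, by simpa using this⟩
  · rintro ⟨n, hn⟩
    exact Nat.rfind_dom'.2 ⟨n, by simpa using hn, fun _ => trivial⟩

/-- r.e. predicates are projections of primitive recursive relations -/
theorem re_normal {p : α → Prop} (hp : REPred p) :
    ∃ q : α → ℕ → Prop, (PrimrecRel q) ∧ ∀ a, p a ↔ ∃ n, q a n := by
  obtain ⟨c, hc⟩ := Nat.Partrec.Code.exists_code.1 hp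
  refine ⟨fun a n => (Nat.Partrec.Code.evaln n c (Encodable.encode a)).isSome = true, ?_, ?_⟩
  · have h : Primrec fun x : α × ℕ => Nat.Partrec.Code.evaln x.2 c (Encodable.encode x.1) :=
      Nat.Partrec.Code.primrec_evaln.comp
        (Primrec.pair (Primrec.pair snd (Primrec.const c)) (Primrec.encode.comp fst))
    exact Primrec.eq.comp (Primrec.option_isSome.comp h) (Primrec.const true)
  · intro a
    have h1 : (Nat.Partrec.Code.eval c (Encodable.encode a)).Dom ↔ p a := by
      rw [hc]
      simp [Part.assert]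
    rw [← h1, Part.dom_iff_mem]
    constructor
    · rintro ⟨y, hy⟩
      obtain ⟨k, hk⟩ := Nat.Partrec.Code.evaln_complete.1 hy
      exact ⟨k, Option.isSome_iff_exists.2 ⟨y, hk⟩⟩
    · rintro ⟨k, hk⟩
      obtain ⟨y, hy⟩ := Option.isSome_iff_exists.1 hk
      exact ⟨y, Nat.Partrec.Code.evaln_sound hy⟩

theorem re_iff {p : α → Prop} :
    REPred p ↔ ∃ q : α → ℕ → Prop, (PrimrecRel q) ∧ ∀ a, p a ↔ ∃ n, q a n := by
  refine ⟨re_normal, ?_⟩
  rintro ⟨q, hq, h⟩
  exact (re_of_exists (PrimrecPred.computablePred hq)).of_eq fun a => (h a).symm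

theorem re_of_primrec {p : α → Prop} (hp : PrimrecPred p) : REPred p := hp.computablePred.to_re

/-- composition with a computable function -/
theorem re_comp {p : β → Prop} (hp : REPred p) {f : α → β} (hf : Computable f) :
    REPred fun a => p (f a) := Partrec.comp hp hf

theorem computablePred_comp {p : β → Prop} (hp : ComputablePred p) {f : α → β} (hf : Computable f) :
    ComputablePred fun a => p (f a) := by
  classical
  obtain ⟨g, hg, rfl⟩ := ComputablePred.computable_iff.1 hp
  exact ComputablePred.computable_iff.2 ⟨fun a => g (f a), hg.comp hf, rfl⟩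

theorem re_and {p q : α → Prop} (hp : REPred p) (hq : REPred q) : REPred fun a => p a ∧ q a := by
  obtain ⟨P, hP, h1⟩ := re_normal hp
  obtain ⟨Q, hQ, h2⟩ := re_normal hq
  refine re_iff.2 ⟨fun a n => P a n.unpair.1 ∧ Q a n.unpair.2, ?_, ?_⟩
  · exact PrimrecPred.and (hP.comp fst (fst.comp (Primrec.unpair.comp snd)))
      (hQ.comp fst (snd.comp (Primrec.unpair.comp snd)))
  · intro a
    rw [h1, h2]
    constructor
    · rintro ⟨⟨m, hm⟩, ⟨n, hn⟩⟩
      exact ⟨Nat.pair m n, by simpa using hm, by simpa using hn⟩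
    · rintro ⟨n, hn1, hn2⟩
      exact ⟨⟨_, hn1⟩, ⟨_, hn2⟩⟩

theorem re_or {p q : α → Prop} (hp : REPred p) (hq : REPred q) : REPred fun a => p a ∨ q a := by
  obtain ⟨P, hP, h1⟩ := re_normal hp
  obtain ⟨Q, hQ, h2⟩ := re_normal hq
  refine re_iff.2 ⟨fun a n => P a n ∨ Q a n, ?_, ?_⟩
  · exact PrimrecPred.or hP hQ
  · intro a
    rw [h1, h2]
    constructor
    · rintro (⟨m, hm⟩ | ⟨m, hm⟩)
      · exact ⟨m, Or.inl hm⟩
      · exact ⟨m, Or.inr hm⟩
    · rintro ⟨n, hn | hn⟩
      · exact Or.inl ⟨n, hn⟩
      · exact Or.inr ⟨n, hn⟩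

/-- existential quantification over a Primcodable type -/
theorem re_exists {R : α → β → Prop} (hR : REPred fun p : α × β => R p.1 p.2) :
    REPred fun a => ∃ b, R a b := by
  obtain ⟨Q, hQ, h1⟩ := re_normal hR
  refine re_iff.2 ⟨fun a n => ∃ b ∈ ((Encodable.decode (α := β) n.unpair.1).toList : List β), Q (a, b) n.unpair.2, ?_, ?_⟩
  · have h2 : PrimrecRel fun (b : β) (x : α × ℕ) => Q (x.1, b) x.2.unpair.2 :=
      hQ.comp (Primrec.pair (fst.comp snd) fst) (snd.comp (Primrec.unpair.comp (snd.comp snd)))
    exact (h2.exists_mem_list).comp (Primrec.optionToList.comp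
      (Primrec.decode.comp (fst.comp (Primrec.unpair.comp snd)))) Primrec.id
  · intro a
    constructor
    · rintro ⟨b, hb⟩
      obtain ⟨n, hn⟩ := (h1 (a, b)).1 hb
      exact ⟨Nat.pair (Encodable.encode b) n, b, by simp, by simpa using hn⟩
    · rintro ⟨n, b, -, hn⟩
      exact ⟨b, (h1 (a, b)).2 ⟨_, hn⟩⟩

/-- bounded universal quantification over the members of a list -/
theorem re_forall_mem {R : α → β → Prop} (hR : REPred fun p : α × β => R p.1 p.2)
    {f : α → List β} (hf : Computable f) : REPred fun a => ∀ b ∈ f a, R a b := by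
  have key : REPred fun p : α × List β => ∀ b ∈ p.2, R p.1 b := by
    obtain ⟨Q, hQ, h1⟩ := re_normal hR
    refine re_iff.2 ⟨fun p n => ∀ b ∈ p.2, ∃ m < n, Q (p.1, b) m, ?_, ?_⟩
    · have h2 : PrimrecRel fun (m : ℕ) (x : β × ((α × List β) × ℕ)) => Q (x.2.1.1, x.1) m :=
        hQ.comp (Primrec.pair (fst.comp (fst.comp (snd.comp snd))) (fst.comp snd)) fst
      have h3 : PrimrecRel fun (b : β) (y : (α × List β) × ℕ) => ∃ m < y.2, Q (y.1.1, b) m :=
        (h2.exists_mem_list.comp (list_range.comp (snd.comp snd)) Primrec.id).of_eq (by simp)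
      exact h3.forall_mem_list.comp (snd.comp fst) Primrec.id
    · rintro ⟨a, l⟩
      constructor
      · intro h
        have h2 : ∀ b ∈ l, ∃ n, Q (a, b) n := fun b hb => (h1 (a, b)).1 (h b hb)
        clear h
        induction l with
        | nil => exact ⟨0, by simp⟩
        | cons c l ih =>
          obtain ⟨N, hN⟩ := ih fun b hb => h2 b (List.mem_cons_of_mem _ hb)
          obtain ⟨n, hn⟩ := h2 c List.mem_cons_self
          refine ⟨max N (n + 1), ?_⟩
          intro b hb
          rcases List.mem_cons.1 hb with rfl | hb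
          · exact ⟨n, lt_of_lt_of_le (Nat.lt_succ_self _) (le_max_right _ _), hn⟩
          · obtain ⟨m, hm, hQm⟩ := hN b hb
            exact ⟨m, lt_of_lt_of_le hm (le_max_left _ _), hQm⟩
      · rintro ⟨n, hn⟩ b hb
        obtain ⟨m, -, hm⟩ := hn b hb
        exact (h1 (a, b)).2 ⟨m, hm⟩
  exact (re_comp key (f := fun a => (a, f a)) (Computable.pair Computable.id hf)).of_eq fun a => Iff.rfl

/-- bounded existential quantification over the members of a list -/
theorem re_exists_mem {R : α → β → Prop} (hR : REPred fun p : α × β => R p.1 p.2)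
    {f : α → List β} (hf : Computable f) : REPred fun a => ∃ b ∈ f a, R a b := by
  classical
  have h1 : REPred fun p : (α × List β) × β => p.2 ∈ p.1.2 := by
    refine re_of_primrec ?_
    have h2 : PrimrecRel fun (b c : β) => b = c := Primrec.eq
    have h3 : PrimrecRel fun (l : List β) (c : β) => ∃ b ∈ l, b = c := h2.exists_mem_list
    exact (h3.comp (snd.comp fst) snd).of_eq (by simp)
  have h4 : REPred fun p : (α × List β) × β => p.2 ∈ p.1.2 ∧ R p.1.1 p.2 :=
    re_and h1 (re_comp (f := fun p : (α × List β) × β => (p.1.1, p.2)) hR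
      (Primrec.pair (fst.comp fst) snd).to_comp)
  exact (re_comp (re_exists (R := fun (p : α × List β) (b : β) => b ∈ p.2 ∧ R p.1 b) h4)
    (f := fun a => (a, f a)) (Computable.pair Computable.id hf)).of_eq fun a => Iff.rfl

/-- decidable from r.e. and co-r.e., where the two halves are given by certificates -/
theorem computablePred_of_certs {p : α → Prop} {Yes No : α → β → Prop}
    (hY : REPred fun x : α × β => Yes x.1 x.2) (hN : REPred fun x : α × β => No x.1 x.2)
    (h1 : ∀ a, p a ↔ ∃ b, Yes a b) (h2 : ∀ a, ¬ p a ↔ ∃ b, No a b) : ComputablePred p :=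
  ComputablePred.computable_iff_re_compl_re'.2
    ⟨(re_exists hY).of_eq fun a => (h1 a).symm, (re_exists hN).of_eq fun a => (h2 a).symm⟩

/-- finite advice: predicates which differ from a computable one on a finite set (through a computable
function to ℕ with bounded values) -/
theorem computablePred_finite_advice {p : α → Prop} (f : α → ℕ) (hf : Computable f) (N : ℕ)
    (hN : ∀ a, f a < N) (K : Set ℕ) (h : ∀ a, p a ↔ f a ∈ K) : ComputablePred p := by
  classical
  have h1 : PrimrecPred fun n : ℕ => n ∈ ((List.range N).filter fun k => k ∈ K) := by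
    have h2 : PrimrecRel fun (b c : ℕ) => b = c := Primrec.eq
    have h3 : PrimrecRel fun (l : List ℕ) (c : ℕ) => ∃ b ∈ l, b = c := h2.exists_mem_list
    exact (h3.comp (Primrec.const ((List.range N).filter fun k => k ∈ K)) Primrec.id).of_eq (by simp)
  refine (computablePred_comp h1.computablePred hf).of_eq fun a => ?_
  rw [h a]
  simp only [List.mem_filter, List.mem_range, decide_eq_true_eq, and_iff_right_iff_imp]
  exact fun _ => hN a

end Pool.Agent.helper47.PV
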