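import Pool.Agent.helper47.PV.ToolG
import Pool.Agent.helper24.PV.GDefs
/-! PV project (MP_c0bc55_al), block W, part 2: equality of normal form data is decidable. -/
set_option linter.unusedSectionVars false
namespace Pool.Agent.helper47.PV
open Primrec
open Pool.Agent.helper50.BW (W Fd Triv)
open Pool.Agent.helper4.PV (BB wl Ltr Par cm Wt Nd Geo)
open Pool.Agent.helper24.PV (Dt SameD abG NrmD RM)

variable {d : ℕ} {P : Par}

/-! ### projections of the data -/

theorem prim_kind : Primrec Dt.kind := fst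
theorem prim_a : Primrec Dt.a := fst.comp (fst.comp snd)
theorem prim_b : Primrec Dt.b := snd.comp (fst.comp snd)
theorem prim_L0 : Primrec Dt.L0 := fst.comp (fst.comp (snd.comp snd))
theorem prim_a0 : Primrec Dt.a0 := snd.comp (fst.comp (snd.comp snd))
theorem prim_R0 : Primrec Dt.R0 := fst.comp (fst.comp (snd.comp (snd.comp snd)))
theorem prim_b0 : Primrec Dt.b0 := snd.comp (fst.comp (snd.comp (snd.comp snd)))
theorem prim_l1 : Primrec Dt.l1 := fst.comp (fst.comp (snd.comp (snd.comp (snd.comp snd))))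
theorem prim_l2 : Primrec Dt.l2 := snd.comp (fst.comp (snd.comp (snd.comp (snd.comp snd))))
theorem prim_D : Primrec Dt.D := snd.comp (snd.comp (snd.comp (snd.comp snd)))

/-- the words that are conjugated simultaneously -/
def vec (t : Dt) : List W :=
  t.a :: t.b :: t.D :: (if t.kind = 2 then [t.L0] else if t.kind = 3 then [t.L0, t.a0, t.R0, t.b0] else [])

theorem prim_vec : Primrec vec := by
  refine list_cons.comp prim_a (list_cons.comp prim_b (list_cons.comp prim_D ?_))
  refine Primrec.ite (Primrec.eq.comp prim_kind (const 2)) (list_cons.comp prim_L0 (const [])) ?_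
  refine Primrec.ite (Primrec.eq.comp prim_kind (const 3)) ?_ (const [])
  exact list_cons.comp prim_L0 (list_cons.comp prim_a0 (list_cons.comp prim_R0
    (list_cons.comp prim_b0 (const []))))

/-- the list of names -/
def nms (t : Dt) : List W := t.l1 ++ t.l2

theorem prim_nms : Primrec nms := list_append.comp prim_l1 prim_l2

/-- the names are the same -/
def SubN (d : ℕ) (l l' : List W) : Prop :=
  ∀ y ∈ l, ∃ y' ∈ l', (abG (wl d y) : Abelianization (BB d)) = abG (wl d y')

theorem prim_SubN (hd : 0 < d) : PrimrecRel fun l l' : List W => SubN d l l' := by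
  have h1 : PrimrecRel fun (y : W) (x : List W × List W) =>
      ∃ y' ∈ x.2, (abG (wl d y) : Abelianization (BB d)) = abG (wl d y') := by
    refine primrecPred_exists_mem (α := W × (List W × List W))
      (R := fun (x : W × (List W × List W)) (y' : W) =>
        (abG (wl d x.1) : Abelianization (BB d)) = abG (wl d y')) ?_ (snd.comp snd)
    exact (prim_abEq hd).comp (fst.comp fst) snd
  refine primrecPred_forall_mem (α := List W × List W)
      (R := fun (x : List W × List W) (y : W) =>
        ∃ y' ∈ x.2, (abG (wl d y) : Abelianization (BB d)) = abG (wl d y')) ?_ fst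
  exact h1.comp snd fst

theorem perm_iff_SubN {l l' : List W} (h : (l.map fun y => (abG (wl d y) : Abelianization (BB d))).Nodup)
    (h' : (l'.map fun y => (abG (wl d y) : Abelianization (BB d))).Nodup) :
    (l'.map fun y => (abG (wl d y) : Abelianization (BB d))).Perm (l.map fun y => abG (wl d y)) ↔
      SubN d l l' ∧ SubN d l' l := by
  rw [List.perm_ext_iff_of_nodup h' h]
  constructor
  · intro h1
    constructor
    · intro y hy
      have h2 := (h1 (abG (wl d y))).2 (List.mem_map.2 ⟨y, hy, rfl⟩)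
      obtain ⟨y', hy', h3⟩ := List.mem_map.1 h2
      exact ⟨y', hy', h3.symm⟩
    · intro y hy
      have h2 := (h1 (abG (wl d y))).1 (List.mem_map.2 ⟨y, hy, rfl⟩)
      obtain ⟨y', hy', h3⟩ := List.mem_map.1 h2
      exact ⟨y', hy', h3.symm⟩
  · rintro ⟨h1, h2⟩ c
    constructor
    · intro hc
      obtain ⟨y, hy, rfl⟩ := List.mem_map.1 hc
      obtain ⟨y', hy', h3⟩ := h2 y hy
      exact List.mem_map.2 ⟨y', hy', h3.symm⟩
    · intro hc
      obtain ⟨y, hy, rfl⟩ := List.mem_map.1 hc
      obtain ⟨y', hy', h3⟩ := h1 y hy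
      exact List.mem_map.2 ⟨y', hy', h3.symm⟩

theorem simC_vec {g : BB d} {t t' : Dt} (hk : t'.kind = t.kind) :
    SimC d g (vec t) (vec t') ↔ wl d t'.a = g * wl d t.a * g⁻¹ ∧
    wl d t'.b = g * wl d t.b * g⁻¹ ∧ wl d t'.D = g * wl d t.D * g⁻¹ ∧
    (t.kind = 2 → wl d t'.L0 = g * wl d t.L0 * g⁻¹) ∧
    (t.kind = 3 → wl d t'.L0 = g * wl d t.L0 * g⁻¹ ∧ wl d t'.a0 = g * wl d t.a0 * g⁻¹ ∧
      wl d t'.R0 = g * wl d t.R0 * g⁻¹ ∧ wl d t'.b0 = g * wl d t.b0 * g⁻¹) := by
  unfold SimC vec
  rw [hk]
  by_cases h2 : t.kind = 2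
  · rw [if_pos h2, if_pos h2]
    simp [h2]
  · rw [if_neg h2, if_neg h2]
    by_cases h3 : t.kind = 3
    · rw [if_pos h3, if_pos h3]
      simp [h3]
    · rw [if_neg h3, if_neg h3]
      simp [h2, h3]

/-- **W2.** equality of normal form data is decided by a primitive recursive relation -/
theorem exists_sameD (hG : Geo d P) (hd : 0 < d) (hT : PrimrecPred fun w : W => Triv d w) :
    ∃ S : Dt → Dt → Prop, PrimrecRel S ∧ ∀ t t' : Dt,
      (t.kind = 3 → ((t.l1 ++ t.l2).map fun y => (abG (wl d y) : Abelianization (BB d))).Nodup) →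
      (t'.kind = 3 → ((t'.l1 ++ t'.l2).map fun y => (abG (wl d y) : Abelianization (BB d))).Nodup) →
      (S t t' ↔ SameD d t t') := by
  obtain ⟨c, hc1, hc2, hc3⟩ := exists_conjW hG hT
  obtain ⟨s, hs1, hs2, hs3⟩ := exists_simC hG hd hT
  let S : Dt → Dt → Prop := fun t t' =>
    (t.kind = 0 ∧ t'.kind = 0 ∧ ∃ k ∈ List.range d, (c (npw t.a k, t'.a)).isSome = true) ∨
    (¬ t.kind = 0 ∧ t'.kind = t.kind ∧ (s (vec t, vec t')).isSome = true ∧
      (¬ t.kind = 3 ∨ (SubN d (nms t) (nms t') ∧ SubN d (nms t') (nms t))))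
  refine ⟨S, ?_, ?_⟩
  · have e0 : PrimrecPred fun x : Dt × Dt => x.1.kind = 0 :=
      Primrec.eq.comp (prim_kind.comp fst) (const 0)
    have e0' : PrimrecPred fun x : Dt × Dt => x.2.kind = 0 :=
      Primrec.eq.comp (prim_kind.comp snd) (const 0)
    have e1 : PrimrecPred fun x : Dt × Dt =>
        ∃ k ∈ List.range d, (c (npw x.1.a k, x.2.a)).isSome = true := by
      refine primrecPred_exists_mem (α := Dt × Dt)
        (R := fun (x : Dt × Dt) (k : ℕ) => (c (npw x.1.a k, x.2.a)).isSome = true) ?_
        (const (List.range d))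
      exact Primrec.eq.comp (option_isSome.comp (hc1.comp (Primrec.pair
        (prim_npw.comp (prim_a.comp (fst.comp fst)) snd) (prim_a.comp (snd.comp fst))))) (const true)
    have e2 : PrimrecPred fun x : Dt × Dt => x.2.kind = x.1.kind :=
      Primrec.eq.comp (prim_kind.comp snd) (prim_kind.comp fst)
    have e3 : PrimrecPred fun x : Dt × Dt => (s (vec x.1, vec x.2)).isSome = true :=
      Primrec.eq.comp (option_isSome.comp (hs1.comp (Primrec.pair (prim_vec.comp fst)
        (prim_vec.comp snd)))) (const true)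
    have e4 : PrimrecPred fun x : Dt × Dt => ¬ x.1.kind = 3 :=
      (Primrec.eq.comp (prim_kind.comp fst) (const 3)).not
    have e5 : PrimrecPred fun x : Dt × Dt => SubN d (nms x.1) (nms x.2) :=
      (prim_SubN hd).comp (prim_nms.comp fst) (prim_nms.comp snd)
    have e6 : PrimrecPred fun x : Dt × Dt => SubN d (nms x.2) (nms x.1) :=
      (prim_SubN hd).comp (prim_nms.comp snd) (prim_nms.comp fst)
    exact (e0.and (e0'.and e1)).or (e0.not.and (e2.and (e3.and (e4.or (e5.and e6)))))
  · intro t t' hn hn'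
    unfold SameD
    apply or_congr
    · apply and_congr_right
      intro _
      apply and_congr_right
      intro _
      constructor
      · rintro ⟨k, -, hk⟩
        obtain ⟨v, hv⟩ := Option.isSome_iff_exists.1 hk
        have h1 := (hc2 _ _ _ hv).1
        rw [wl_npw] at h1
        exact ⟨wl d v, k, h1.symm⟩
      · rintro ⟨g, k, hk⟩
        obtain ⟨m, hm, hkm⟩ := zpow_eq_pow_mod hd (wl d t.a) (k : ℤ)
        rw [zpow_natCast] at hkm
        refine ⟨m, List.mem_range.2 hm, ?_⟩
        rw [Option.isSome_iff_ne_none]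
        intro h1
        apply hc3 _ _ h1
        rw [isConj_iff, wl_npw, ← hkm]
        exact ⟨g, hk.symm⟩
    · apply and_congr_right
      intro _
      apply and_congr_right
      intro hkind
      have hperm : t.kind = 3 → ((((t'.l1 ++ t'.l2).map fun y => (abG (wl d y) : Abelianization (BB d))).Perm
          ((t.l1 ++ t.l2).map fun y => abG (wl d y))) ↔
          SubN d (nms t) (nms t') ∧ SubN d (nms t') (nms t)) := by
        intro h3
        exact perm_iff_SubN (hn h3) (hn' (by rw [hkind, h3]))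
      constructor
      · rintro ⟨h1, h2⟩
        obtain ⟨v, hv⟩ := Option.isSome_iff_exists.1 h1
        have h3 := (simC_vec hkind).1 (hs2 _ _ _ hv).1
        obtain ⟨g1, g2, g3, g4, g5⟩ := h3
        refine ⟨wl d v, g1, g2, g3, g4, fun h3 => ?_⟩
        obtain ⟨p1, p2, p3, p4⟩ := g5 h3
        exact ⟨p1, p2, p3, p4, (hperm h3).2 (h2.resolve_left (not_not.2 h3))⟩
      · rintro ⟨g, g1, g2, g3, g4, g5⟩
        constructor
        · rw [Option.isSome_iff_ne_none]
          intro h1
          apply hs3 _ _ h1 g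
          rw [simC_vec hkind]
          refine ⟨g1, g2, g3, g4, fun h3 => ?_⟩
          obtain ⟨p1, p2, p3, p4, -⟩ := g5 h3
          exact ⟨p1, p2, p3, p4⟩
        · by_cases h3 : t.kind = 3
          · right
            exact (hperm h3).1 (g5 h3).2.2.2.2
          · left
            exact h3

/-- the names of normal form data are distinct -/
theorem NrmD_nodup {T : RM} {adv : Finset ℕ} {t : Dt} (h : NrmD P T d adv t) (h3 : t.kind = 3) :
    ((t.l1 ++ t.l2).map fun y => (abG (wl d y) : Abelianization (BB d))).Nodup := by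
  unfold NrmD at h
  rcases h with h | h | h | h
  · omega
  · omega
  · omega
  · exact h.2.2.2.2.1

/-- **W2**, for normal form data -/
theorem exists_sameD' (hG : Geo d P) (hd : 0 < d) (hT : PrimrecPred fun w : W => Triv d w) :
    ∃ S : Dt → Dt → Prop, PrimrecRel S ∧ ∀ (T : RM) (adv : Finset ℕ) (t t' : Dt),
      NrmD P T d adv t → NrmD P T d adv t' → (S t t' ↔ SameD d t t') := by
  obtain ⟨S, h1, h2⟩ := exists_sameD hG hd hT
  exact ⟨S, h1, fun T adv t t' h h' => h2 t t' (NrmD_nodup h) (NrmD_nodup h')⟩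

end Pool.Agent.helper47.PV
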